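import Pool.Agent.P.MP_52b1ec_lc.T.Defs

namespace Pool.Agent.P.MP_52b1ec_lc.TH

open Set Filter

theorem In.mono {X : ℕ → ℕ} {A B : Set ℕ} (h : In X A) (k : A ⊆ B) : In X B :=
  ⟨h.1, fun i => k (h.2 i)⟩

theorem In.shift {X : ℕ → ℕ} {A : Set ℕ} (h : In X A) : In (fun i => X (i + 1)) A :=
  ⟨fun _ _ e => h.1 (Nat.succ_lt_succ e), fun _ => h.2 _⟩

theorem w_exists_in {A : Set ℕ} (h : A.Infinite) : ∃ X, In X A :=
  ⟨Nat.nth (· ∈ A), Nat.nth_strictMono h, Nat.nth_mem_of_infinite h⟩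

/-- initial segments -/
def w_seg (X : ℕ → ℕ) (k : ℕ) : Finset ℕ := (Finset.range k).image X

theorem w_seg_succ (X : ℕ → ℕ) (k : ℕ) : w_seg X (k + 1) = insert (X k) (w_seg X k) := by
  rw [w_seg, Finset.range_add_one, Finset.image_insert, w_seg]

theorem w_seg_inj {X Y : ℕ → ℕ} (hX : StrictMono X) (hY : StrictMono Y) {n m : ℕ}
    (h : w_seg Y m = w_seg X n) : m = n ∧ ∀ i < n, Y i = X i := by
  have e : m = n := by
    have := congrArg Finset.card h
    rwa [w_seg, w_seg, Finset.card_image_of_injective _ hX.injective,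
      Finset.card_image_of_injective _ hY.injective, Finset.card_range, Finset.card_range] at this
  subst e
  have key : ∀ Z : ℕ → ℕ, range (fun i : Fin m => Z i) = w_seg Z m := fun Z => by
    ext x
    simp [w_seg, Fin.exists_iff]
  have := (StrictMono.range_inj (f := fun i : Fin m => Y i) (g := fun i : Fin m => X i)
    (hY.comp Fin.val_strictMono) (hX.comp Fin.val_strictMono)).1 (by rw [key, key, h])
  exact ⟨rfl, fun i hi => congrFun this ⟨i, hi⟩⟩

theorem w_fusion {A : Set ℕ} {U : Filter ℕ} [U.NeBot] (hU : U ≤ atTop) (hA : A ∈ U)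
    (F : Finset ℕ → Set ℕ) (hF : ∀ s, F s ∈ U) :
    ∃ B ⊆ A, B.Infinite ∧ ∀ X, In X B → ∀ k, X k ∈ F (w_seg X k) := by
  have h1 : ∀ m, ∃ n, n ∈ A ∧ m < n ∧ ∀ s ∈ (Finset.range (m + 1)).powerset, n ∈ F s := fun m =>
    (Eventually.and hA (((eventually_gt_atTop m).filter_mono hU).and
      ((eventually_all_finset _).2 fun s _ => hF s))).exists
  choose nx h2 h3 h4 using h1
  let b : ℕ → ℕ := fun j => nx^[j] 0
  have hb : ∀ j, b (j + 1) = nx (b j) := fun j => Function.iterate_succ_apply' _ _ _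
  have hm : StrictMono b := strictMono_nat_of_lt_succ fun j => hb j ▸ h3 _
  refine ⟨range fun j => b (j + 1), ?_, infinite_range_of_injective
    (hm.injective.comp (add_left_injective 1)), fun X hX k => ?_⟩
  · rintro _ ⟨j, rfl⟩
    exact mem_of_eq_of_mem (hb j) (h2 _)
  · obtain ⟨j, hj⟩ := hX.2 k
    refine mem_of_eq_of_mem (hj.symm.trans (hb j))
      (h4 (b j) _ (Finset.mem_powerset.2 fun x hx => ?_))
    obtain ⟨i, hi, rfl⟩ := Finset.mem_image.1 hx
    obtain ⟨j', hj'⟩ := hX.2 i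
    have := hX.1 (Finset.mem_range.1 hi)
    rw [← hj, ← hj'] at this
    rw [← hj']
    exact Finset.mem_range.2 (Nat.lt_succ_of_le (hm.monotone (Nat.le_of_lt_succ
      (hm.lt_iff_lt.1 this))))

theorem ramsey {P : (ℕ → ℕ) → Prop} {A : Set ℕ} (h : Arr P A) :
    ∃ B ⊆ A, B.Infinite ∧ ((∀ X, In X B → P X) ∨ ∀ X, In X B → ¬ P X) := by
  have : (atTop ⊓ principal A).NeBot :=
    frequently_mem_iff_neBot.1 (Nat.frequently_atTop_iff_infinite.2 h.1)
  let U := Ultrafilter.of (atTop ⊓ principal A)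
  have hU : (U : Filter ℕ) ≤ atTop := (Ultrafilter.of_le _).trans inf_le_left
  have hA : A ∈ (U : Filter ℕ) := le_principal_iff.1 ((Ultrafilter.of_le _).trans inf_le_right)
  let W : Finset ℕ → Prop := fun s => ∃ F : Finset ℕ → Set ℕ, (∀ t, F t ∈ (U : Filter ℕ)) ∧
    ∀ Y k, In Y A → w_seg Y k = s → (∀ j, k ≤ j → Y j ∈ F (w_seg Y j)) → P Y
  have step : ∀ s, {n | W (insert n s)} ∈ U → W s := fun s hs => by
    have : ∀ n, ∃ F : Finset ℕ → Set ℕ, (∀ t, F t ∈ (U : Filter ℕ)) ∧ (W (insert n s) →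
        ∀ Y k, In Y A → w_seg Y k = insert n s → (∀ j, k ≤ j → Y j ∈ F (w_seg Y j)) → P Y) :=
      fun n => by
        by_cases e : W (insert n s)
        · exact e.imp fun F k => ⟨k.1, fun _ => k.2⟩
        · exact ⟨fun _ => univ, fun _ => univ_mem, fun k => (e k).elim⟩
    choose F h1 h2 using this
    refine ⟨fun t => {n | W (insert n s)} ∩ ⋂ n ∈ t, F n t, fun t => inter_mem hs
      ((biInter_finset_mem t).2 fun n _ => h1 n t), fun Y k hY e hj => ?_⟩
    refine h2 (Y k) (hj k le_rfl).1 Y (k + 1) hY (e ▸ w_seg_succ Y k) fun j hk => ?_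
    exact mem_iInter₂.1 (hj j (Nat.le_of_succ_le hk)).2 _
      (Finset.mem_image_of_mem _ (Finset.mem_range.2 hk))
  by_cases h0 : W ∅
  · obtain ⟨F, h1, h2⟩ := h0
    obtain ⟨B, b1, b2, b3⟩ := w_fusion hU hA F h1
    exact ⟨B, b1, b2, Or.inl fun X hX => h2 X 0 (hX.mono b1) rfl fun j _ => b3 X hX j⟩
  · obtain ⟨B, b1, b2, b3⟩ := w_fusion hU hA (fun t => {n | W (insert n t) → W t}) fun t => by
      rcases U.mem_or_compl_mem {n | W (insert n t)} with e | e
      · exact mem_of_superset univ_mem fun n _ _ => step t e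
      · exact mem_of_superset e fun n a b => (a b).elim
    refine ⟨B, b1, b2, Or.inr fun X hX hP => h0 ?_⟩
    obtain ⟨n, hn⟩ := h.2 X (hX.mono b1)
    have : W (w_seg X n) := ⟨fun _ => univ, fun _ => univ_mem, fun Y k hY e _ =>
      hn Y hY (w_seg_inj hX.1 hY.1 e).2 ▸ hP⟩
    clear hn
    induction n with
    | zero => exact this
    | succ n ih => exact ih (b3 X hX n (w_seg_succ X n ▸ this))

/-- constant on a cone -/
def w_Con {Q : Type} (f : (ℕ → ℕ) → Q) (A : Set ℕ) (X : ℕ → ℕ) (n : ℕ) : Prop :=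
  ∀ Y, In Y A → (∀ i ≤ n, Y i = X i) → f Y = f X

theorem w_con {Q : Type} {f : (ℕ → ℕ) → Q} {A : Set ℕ} (h : Arr f A) {X : ℕ → ℕ} (hX : In X A) :
    ∃ n, w_Con f A X n :=
  (h.2 X hX).imp fun _ k Y hY e => k Y hY fun i hi => e i hi.le

/-- a smaller bad array that keeps the points up to `p` -/
structure w_Cand {Q : Type} (r lt : Q → Q → Prop) (f : (ℕ → ℕ) → Q) (A : Set ℕ)
    (g : (ℕ → ℕ) → Q) (B : Set ℕ) (p : ℕ) : Prop where
  bad : Bad r g B
  sub : B ⊆ A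
  keep : ∀ x ∈ A, x ≤ p → x ∈ B
  le : ∀ X, In X B → lt (g X) (f X) ∨ g X = f X
  con : ∀ X n, In X B → w_Con f A X n → w_Con g B X n ∨ lt (g X) (f X)
  wit : ∃ X n, In X A ∧ X n = p ∧ w_Con f A X n ∧
    ∀ Y, In Y B → (∀ i ≤ n, Y i = X i) → lt (g Y) (f Y)

theorem w_cand {Q : Type} {r lt : Q → Q → Prop} (h : ∀ a b c, r a b → lt b c → r a c)
    {f g : (ℕ → ℕ) → Q} {A C : Set ℕ} (hf : Bad r f A) (hg : Bad r g C) (hC : C ⊆ A)
    (hl : ∀ X, In X C → lt (g X) (f X)) {X₁ : ℕ → ℕ} {n₁ : ℕ} (h1 : In X₁ C)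
    (h2 : w_Con f A X₁ n₁) : ∃ g' B p, w_Cand r lt f A g' B p ∧ p ≤ X₁ n₁ := by
  classical
  have ex : ∃ p, ∃ X n, In X A ∧ X n = p ∧ w_Con f A X n ∧ ∀ i ≤ n, X i ∈ C :=
    ⟨_, X₁, n₁, h1.mono hC, rfl, h2, fun i _ => h1.2 i⟩
  obtain ⟨X₀, n₀, a1, a2, a3, a4⟩ := Nat.find_spec ex
  have hmin : ∀ X n, In X A → w_Con f A X n → (∀ i ≤ n, X i ∈ C) → Nat.find ex ≤ X n :=
    fun X n b1 b2 b3 => Nat.find_min' ex ⟨X, n, b1, rfl, b2, b3⟩
  generalize Nat.find ex = p at a2 hmin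
  let B : Set ℕ := C ∪ {x ∈ A | x ≤ p}
  have hB : B ⊆ A := union_subset hC fun _ k => k.1
  have inC : ∀ Y n, In Y B → (∀ i ≤ n, Y i ∈ C) → p ≤ Y n → In Y C := fun Y n hY b1 b2 =>
    ⟨hY.1, fun i => (le_or_gt i n).elim (b1 i) fun hi => (hY.2 i).resolve_right fun k =>
      (b2.trans_lt (hY.1 hi)).not_ge k.2⟩
  refine ⟨fun X => if In X C then g X else f X, B, p, ⟨⟨⟨hg.1.1.mono subset_union_left,
    fun X hX => ?_⟩, fun X hX => ?_⟩, hB, fun x hx e => Or.inr ⟨hx, e⟩, fun X _ => ?_,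
    fun X n hX hn => ?_, X₀, n₀, a1, a2, a3, fun Y hY e => ?_⟩,
    hmin _ _ (h1.mono hC) h2 fun i _ => h1.2 i⟩
  · by_cases e : In X C
    · obtain ⟨n, hn⟩ := hg.1.2 X e
      refine ⟨max n (p + 1), fun Y hY k => ?_⟩
      have : In Y C := inC Y p hY (fun i hi => k i (by omega) ▸ e.2 i) hY.1.le_apply
      simp only [if_pos e, if_pos this]
      exact hn Y this fun i hi => k i (by omega)
    · obtain ⟨n, hn⟩ := hf.1.2 X (hX.mono hB)
      obtain ⟨j, hj⟩ := not_forall.1 fun k => e ⟨hX.1, k⟩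
      refine ⟨max n (j + 1), fun Y hY k => ?_⟩
      have : ¬ In Y C := fun c => hj (k j (by omega) ▸ c.2 j)
      simp only [if_neg e, if_neg this]
      exact hn Y (hY.mono hB) fun i hi => k i (by omega)
  · by_cases e : In X C
    · simp only [if_pos e, if_pos e.shift]
      exact hg.2 X e
    · simp only [if_neg e]
      split_ifs with e'
      · exact fun k => hf.2 X (hX.mono hB) (h _ _ _ k (hl _ e'))
      · exact hf.2 X (hX.mono hB)
  · split_ifs with e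
    · exact Or.inl (hl X e)
    · exact Or.inr rfl
  · by_cases e : In X C
    · simp only [if_pos e]
      exact Or.inr (hl X e)
    · refine Or.inl fun Y hY k => ?_
      have : ¬ In Y C := fun c => e (inC X n hX (fun i hi => k i hi ▸ c.2 i)
        (hmin X n (hX.mono hB) hn fun i hi => k i hi ▸ c.2 i))
      simp only [if_neg e, if_neg this]
      exact hn Y (hY.mono hB) k
  · have : In Y C := inC Y n₀ hY (fun i hi => (e i hi).symm ▸ a4 i hi)
      (a2.symm.trans (e n₀ le_rfl).symm).le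
    simp only [if_pos this]
    exact hl Y this

theorem no_bad {Q : Type} {r lt : Q → Q → Prop} (wf : WellFounded lt)
    (tr : ∀ a b c, lt a b → lt b c → lt a c) (h : ∀ a b c, r a b → lt b c → r a c)
    (H : ∀ f A, Bad r f A → ∃ g, ∃ B ⊆ A, Bad r g B ∧ ∀ X, In X B → lt (g X) (f X)) :
    ∀ f A, ¬ Bad r f A := by
  classical
  intro f₀ A₀ h₀
  have h1 : ∀ x : {x : ((ℕ → ℕ) → Q) × Set ℕ // Bad r x.1 x.2},
      ∃ (y : {x : ((ℕ → ℕ) → Q) × Set ℕ // Bad r x.1 x.2}) (p : ℕ),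
        w_Cand r lt x.1.1 x.1.2 y.1.1 y.1.2 p ∧
          ∀ g B q, w_Cand r lt x.1.1 x.1.2 g B q → p ≤ q := fun x => by
    obtain ⟨g, C, a1, a2, a3⟩ := H _ _ x.2
    obtain ⟨X, hX⟩ := w_exists_in a2.1.1
    obtain ⟨n, hn⟩ := w_con x.2.1 (hX.mono a1)
    obtain ⟨g', B, p, c, -⟩ := w_cand h x.2 a2 a1 a3 hX hn
    have ex : ∃ p g B, w_Cand r lt x.1.1 x.1.2 g B p := ⟨p, g', B, c⟩
    obtain ⟨g, B, c⟩ := Nat.find_spec ex
    exact ⟨⟨(g, B), c.bad⟩, _, c, fun g B q k => Nat.find_min' ex ⟨g, B, k⟩⟩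
  choose nx pp h1 h2 using h1
  obtain ⟨f, A, p, hb, hc, hm⟩ : ∃ (f : ℕ → (ℕ → ℕ) → Q) (A : ℕ → Set ℕ) (p : ℕ → ℕ),
      (∀ m, Bad r (f m) (A m)) ∧ (∀ m, w_Cand r lt (f m) (A m) (f (m + 1)) (A (m + 1)) (p m)) ∧
      ∀ m g B q, w_Cand r lt (f m) (A m) g B q → p m ≤ q :=
    ⟨fun m => (nx^[m] ⟨(f₀, A₀), h₀⟩).1.1, fun m => (nx^[m] ⟨(f₀, A₀), h₀⟩).1.2,
      fun m => pp (nx^[m] ⟨(f₀, A₀), h₀⟩), fun m => (nx^[m] ⟨(f₀, A₀), h₀⟩).2,
      fun m => by simpa only [Function.iterate_succ_apply'] using h1 _, fun m => h2 _⟩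
  have hA : Antitone A := antitone_nat_of_succ_le fun m => (hc m).sub
  have hle : ∀ m m', m ≤ m' → ∀ X, In X (A m') → lt (f m' X) (f m X) ∨ f m' X = f m X := by
    intro m m' e
    induction e with
    | refl => exact fun _ _ => Or.inr rfl
    | step _ ih =>
      intro X hX
      rcases (hc _).le X hX with a | a
      · rcases ih X (hX.mono (hc _).sub) with b | b
        · exact Or.inl (tr _ _ _ a b)
        · exact Or.inl (b ▸ a)
      · exact a ▸ ih X (hX.mono (hc _).sub)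
  choose X n x1 x2 x3 x4 using fun m => (hc m).wit
  have hp : ∀ k, ∃ M, ∀ m, M ≤ m → k < p m := fun k => by
    have : {m | p m ≤ k}.Finite := by
      refine Finite.of_finite_fibers (fun m => w_seg (X m) (n m + 1))
        ((Finset.range (k + 1)).powerset.finite_toSet.subset ?_) fun t _ => ?_
      · rintro _ ⟨m, hm, rfl⟩
        refine Finset.mem_coe.2 (Finset.mem_powerset.2 fun x hx => ?_)
        obtain ⟨i, hi, rfl⟩ := Finset.mem_image.1 hx
        exact Finset.mem_range.2 (Nat.lt_succ_of_le (((x1 m).1.monotone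
          (Nat.le_of_lt_succ (Finset.mem_range.1 hi))).trans ((x2 m).le.trans hm)))
      · by_contra hi
        have hi : Set.Infinite _ := hi
        obtain ⟨_, ⟨m, hm, rfl⟩, hmin⟩ := wf.has_min _ (hi.nonempty.image fun m => f m (X m))
        obtain ⟨m', hm', e⟩ := hi.exists_gt m
        refine hmin _ ⟨m', hm', rfl⟩ ?_
        have k1 := fun i hi => (w_seg_inj (x1 m).1 (x1 m').1 (hm'.2.trans hm.2.symm)).2 i
          (Nat.lt_succ_of_le hi)
        have k2 := x4 m _ ((x1 m').mono (hA e)) k1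
        rw [x3 m _ ((x1 m').mono (hA e.le)) k1] at k2
        rcases hle _ _ e _ (x1 m') with a | a
        · exact tr _ _ _ a k2
        · rwa [← a] at k2
    obtain ⟨M, hM⟩ := this.bddAbove
    exact ⟨M + 1, fun m e => lt_of_not_ge fun c => absurd (hM c) (by omega)⟩
  have hinf : (⋂ m, A m).Infinite := infinite_of_forall_exists_gt fun k => by
    obtain ⟨M, hM⟩ := hp k
    obtain ⟨m, hm, hmin⟩ := exists_minimalFor_of_wellFoundedLT (fun m => M ≤ m) p ⟨M, le_rfl⟩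
    refine ⟨p m, mem_iInter.2 fun j => hA (le_max_left j m) ?_, hM m hm⟩
    have : ∀ j, m ≤ j → p m ∈ A j := fun j e => by
      induction e with
      | refl => exact x2 m ▸ (x1 m).2 _
      | step e ih =>
        exact (hc _).keep _ ih ((le_total _ _).elim id fun c => hmin (hm.trans e) c)
    exact this _ (le_max_right _ _)
  have hin : ∀ Y, In Y (⋂ m, A m) → ∀ m, In Y (A m) := fun Y hY m => hY.mono (iInter_subset _ m)
  have hst : ∀ Y, In Y (⋂ m, A m) → ∃ N, ∀ m, N ≤ m → f m Y = f N Y := fun Y hY => by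
    obtain ⟨_, ⟨N, rfl⟩, hN⟩ := wf.has_min _ (range_nonempty fun m => f m Y)
    exact ⟨N, fun m e => (hle _ _ e Y (hin Y hY m)).resolve_left (hN _ ⟨m, rfl⟩)⟩
  choose! N hN using hst
  have hcon : ∀ Y, In Y (⋂ m, A m) → ∃ n, ∀ m, N Y ≤ m → w_Con (f m) (A m) Y n := fun Y hY => by
    obtain ⟨n, hn⟩ := w_con (hb (N Y)).1 (hin Y hY _)
    refine ⟨n, fun m e => ?_⟩
    induction e with
    | refl => exact hn
    | step e ih =>
      refine ((hc _).con Y n (hin Y hY _) ih).resolve_right ?_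
      rw [hN Y hY _ e, hN Y hY _ (Nat.le_succ_of_le e)]
      exact wf.irrefl.irrefl _
  have hbad : Bad r (fun Y => f (N Y) Y) (⋂ m, A m) := by
    refine ⟨⟨hinf, fun Y hY => ?_⟩, fun Y hY => ?_⟩
    · obtain ⟨n, hn⟩ := hcon Y hY
      refine ⟨n + 1, fun Z hZ e => ?_⟩
      exact (hN Z hZ _ (le_max_left _ (N Y))).symm.trans ((hn _ (le_max_right _ _) Z (hin Z hZ _)
        fun i hi => e i (Nat.lt_succ_of_le hi)).trans (hN Y hY _ (le_max_right _ _)))
    · have := (hb (max (N Y) (N fun i => Y (i + 1)))).2 Y (hin Y hY _)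
      rwa [hN Y hY _ (le_max_left _ _), hN _ hY.shift _ (le_max_right _ _)] at this
  obtain ⟨g, C, a1, a2, a3⟩ := H _ _ hbad
  obtain ⟨Y, hY⟩ := w_exists_in a2.1.1
  obtain ⟨k, hk⟩ := hcon Y (hY.mono a1)
  obtain ⟨M, hM⟩ := hp (Y k)
  obtain ⟨g', B, q, c, e⟩ := w_cand h (hb (max M (N Y))) a2 (a1.trans (iInter_subset _ _))
    (fun Z hZ => by
      have b1 := a3 Z hZ
      have b2 := hle _ _ (le_max_left (max M (N Y)) (N Z)) Z (hin Z (hZ.mono a1) _)
      rw [hN Z (hZ.mono a1) _ (le_max_right _ _)] at b2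
      rcases b2 with b2 | b2
      · exact tr _ _ _ b1 b2
      · exact b2 ▸ b1) hY (hk _ (le_max_right _ _))
  exact ((hm _ _ _ _ c).trans e).not_gt (hM _ (le_max_left _ _))

end Pool.Agent.P.MP_52b1ec_lc.TH
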