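import Pool.Agent.P.MP_52b1ec_lc.T.Defs
import Pool.Agent.P.MP_52b1ec_lc.Y.OrbA

namespace Pool.Agent.P.MP_52b1ec_lc.TH

open Set

/-- blocks of a tower -/
def a_bl (e : ℕ × ℕ × ℕ → ℕ) (a b : ℕ) : Prop := ∃ m, ∀ j, e (a, b, j + 1) ≤ m

/-- heights of a tower -/
def a_ht (e : ℕ × ℕ × ℕ → ℕ) (a : ℕ) : ℕ := e (a, a, 0)

open Classical in
/-- the tower of a block structure with heights -/
noncomputable def a_enc (B : ℕ → ℕ → Prop) (h : ℕ → ℕ) (p : ℕ × ℕ × ℕ) : ℕ :=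
  if p.2.2 = 0 then h p.1 else if B p.1 p.2.1 then 0 else p.2.2

/-- good block structures -/
def a_Good (B : ℕ → ℕ → Prop) (h : ℕ → ℕ) : Prop :=
  (∀ a, B a a) ∧ (∀ a b, B a b → B b a) ∧ (∀ a b c, B a b → B b c → B a c) ∧
  (∃ R, ∀ a, ∃ b, B a b ∧ h b ≤ R) ∧ (∀ a, ∃ R, ∀ b, B a b → h b ≤ R) ∧
  (∀ R, ∃ N, ∀ a, (∀ b, B a b → h b ≤ R) → ∃ c, c < N ∧ B a c) ∧ (∀ R, ∃ a, R + 1 ≤ h a) ∧
  ∃ g : ℕ → ℕ, Monotone g ∧ ∀ a, {b | B a b ∧ h b ≤ g (h a) ∧ h a ≤ g (h b)}.Infinite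

/-- isomorphism of block structures -/
def a_Iso (B B' : ℕ → ℕ → Prop) (h h' : ℕ → ℕ) (σ : Equiv.Perm ℕ) : Prop :=
  (∀ a b, B a b ↔ B' (σ a) (σ b)) ∧
    ∃ γ : ℕ → ℕ, Monotone γ ∧ ∀ a, h a ≤ γ (h' (σ a)) ∧ h' (σ a) ≤ γ (h a)

/-- the family of the height sets of the blocks -/
def a_Rep (B : ℕ → ℕ → Prop) (h β : ℕ → ℕ) (P : ℕ → Finset ℕ) : Prop :=
  Function.Surjective β ∧ (∀ a b, B a b ↔ β a = β b) ∧
    ∀ i x, x ∈ P i ↔ x = 0 ∨ ∃ a, β a = i ∧ h a = x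

/-- the domain of the coding -/
def a_D : Set (ℕ × ℕ × ℕ → ℕ) :=
  {e | a_Good (a_bl e) (a_ht e) ∧ OR.Cf e (a_enc (a_bl e) (a_ht e)) ∧
    OR.Cf (a_enc (a_bl e) (a_ht e)) e}

lemma a_dom (F : ℕ → ℕ → ℕ) :
    ∃ g : ℕ → ℕ, Monotone g ∧ ∀ n r k, r ≤ n + 1 → k ≤ n → F r k ≤ g n := by
  refine ⟨fun n => (Finset.range (n + 2) ×ˢ Finset.range (n + 2)).sup fun p => F p.1 p.2,
    fun n n' hn => Finset.sup_mono (Finset.product_subset_product ?_ ?_), fun n r k hr hk => ?_⟩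
  · exact Finset.range_mono (by omega)
  · exact Finset.range_mono (by omega)
  · exact Finset.le_sup (f := fun p : ℕ × ℕ => F p.1 p.2) (b := (r, k))
      (Finset.mem_product.2 ⟨Finset.mem_range.2 (by omega), Finset.mem_range.2 (by omega)⟩)

lemma a_cf {I : Type} {e e' : I → ℕ} (h : OR.Cf e e') :
    ∃ γ : ℕ → ℕ, Monotone γ ∧ ∀ i, e i ≤ γ (e' i) := by
  choose m hm using h
  obtain ⟨g, hg, H⟩ := a_dom fun _ k => m k
  exact ⟨g, hg, fun i => (hm _ i le_rfl).trans (H _ 0 _ (by omega) le_rfl)⟩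

lemma a_cf_trans {I : Type} {e e' e'' : I → ℕ} (h : OR.Cf e e') (k : OR.Cf e' e'') :
    OR.Cf e e'' := fun m => by
  obtain ⟨m', h1⟩ := k m
  obtain ⟨m'', h2⟩ := h m'
  exact ⟨m'', fun i hi => h2 i (h1 i hi)⟩

lemma a_cf_comp {I J : Type} {e e' : I → ℕ} (h : OR.Cf e e') (f : J → I) :
    OR.Cf (fun j => e (f j)) fun j => e' (f j) := fun m => (h m).imp fun _ k j => k (f j)

lemma a_cf_of {e e' : ℕ × ℕ × ℕ → ℕ} (σ : Equiv.Perm ℕ)
    (h : OR.Cf (fun p : ℕ × ℕ × ℕ => e (σ p.1, σ p.2.1, p.2.2))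
      fun p => e' (σ p.1, σ p.2.1, p.2.2)) : OR.Cf e e' := fun m =>
  (h m).imp fun _ k p => by simpa using k (σ.symm p.1, σ.symm p.2.1, p.2.2)

lemma a_inf_iff (B : ℕ → ℕ → Prop) (h : ℕ → ℕ) :
    (∃ g : ℕ → ℕ, Monotone g ∧ ∀ a, {b | B a b ∧ h b ≤ g (h a) ∧ h a ≤ g (h b)}.Infinite) ↔
      ∀ r, ∃ r', ∀ k, ∃ k', ∀ a, h a ≤ k →
        {b | B a b ∧ h b ≤ k' ∧ (r' ≤ h a → r ≤ h b)}.Infinite := by
  constructor
  · rintro ⟨g, hg, H⟩ r
    refine ⟨g r + 1, fun k => ⟨g k, fun a ha => (H a).mono ?_⟩⟩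
    rintro b ⟨h1, h2, h3⟩
    refine ⟨h1, h2.trans (hg ha), fun h4 => ?_⟩
    by_contra h5
    have := hg (not_le.1 h5).le
    omega
  · intro H
    choose r' k' H using H
    obtain ⟨g, hg, G⟩ := a_dom fun r k => k' r k + r' r + r
    refine ⟨g, hg, fun a => ?_⟩
    have ex : ∃ r, h a < r' r + r := ⟨h a + 1, by omega⟩
    have h0 := Nat.find_spec ex
    have h1 : Nat.find ex ≤ h a + 1 := Nat.find_min' ex (by omega)
    refine (H (Nat.find ex - 1) (h a) a le_rfl).mono ?_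
    rintro b ⟨h2, h3, h4⟩
    have h5 := G (h a) (Nat.find ex - 1) (h a) (by omega) le_rfl
    have h6 : Nat.find ex ≤ h b + 1 := by
      rcases Nat.eq_zero_or_pos (Nat.find ex) with h7 | h7
      · omega
      · have := Nat.find_min ex (show Nat.find ex - 1 < Nat.find ex by omega)
        have := h4 (by omega)
        omega
    have h7 := G (h b) (Nat.find ex) 0 h6 (by omega)
    exact ⟨h2, by omega, by omega⟩

section iso
variable {B B' : ℕ → ℕ → Prop} {h h' β β' : ℕ → ℕ} {σ : Equiv.Perm ℕ} {P P' : ℕ → Finset ℕ}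

lemma a_Iso.symm (I : a_Iso B B' h h' σ) : a_Iso B' B h' h σ.symm := by
  obtain ⟨h1, γ, hγ, h2⟩ := I
  refine ⟨fun a b => by simpa using (h1 (σ.symm a) (σ.symm b)).symm, γ, hγ, fun a => ?_⟩
  simpa using (h2 (σ.symm a)).symm

lemma a_Iso.cf (I : a_Iso B B' h h' σ) :
    OR.Cf (a_enc B h) (fun p => a_enc B' h' (σ p.1, σ p.2.1, p.2.2)) ∧
      OR.Cf (fun p : ℕ × ℕ × ℕ => a_enc B' h' (σ p.1, σ p.2.1, p.2.2)) (a_enc B h) := by
  obtain ⟨h1, γ, hγ, h2⟩ := I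
  constructor
  · refine fun m => ⟨γ m + m, fun p => ?_⟩
    have h3 := h1 p.1 p.2.1
    simp only [a_enc]
    by_cases k0 : p.2.2 = 0
    · simp only [if_pos k0]
      intro k
      have := hγ k
      have := (h2 p.1).1
      omega
    · by_cases k1 : B p.1 p.2.1
      · simp only [if_neg k0, if_pos k1]
        omega
      · simp only [if_neg k0, if_neg k1, if_neg (mt h3.2 k1)]
        omega
  · refine fun m => ⟨γ m + m, fun p => ?_⟩
    have h3 := h1 p.1 p.2.1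
    simp only [a_enc]
    by_cases k0 : p.2.2 = 0
    · simp only [if_pos k0]
      intro k
      have := hγ k
      have := (h2 p.1).2
      omega
    · by_cases k1 : B p.1 p.2.1
      · simp only [if_neg k0, if_pos (h3.1 k1)]
        omega
      · simp only [if_neg k0, if_neg k1, if_neg (mt h3.2 k1)]
        omega

lemma a_Iso.good (I : a_Iso B B' h h' σ) (G : a_Good B h) : a_Good B' h' := by
  obtain ⟨h1, γ, hγ, h2⟩ := I
  obtain ⟨g1, g2, g3, ⟨R, g4⟩, g5, g6, g7, g, hg, g8⟩ := G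
  have S := σ.surjective
  refine ⟨S.forall.2 fun a => (h1 a a).1 (g1 a),
    S.forall₂.2 fun a b k => (h1 _ _).1 (g2 _ _ ((h1 _ _).2 k)),
    S.forall₃.2 fun a b c k l => (h1 _ _).1 (g3 _ _ _ ((h1 _ _).2 k) ((h1 _ _).2 l)),
    ⟨γ R, S.forall.2 fun a => ?_⟩, S.forall.2 fun a => ?_, fun R => ?_, fun R => ?_,
    fun n => γ (g (γ n)), fun n n' k => hγ (hg (hγ k)), S.forall.2 fun a => ?_⟩
  · obtain ⟨b, k, l⟩ := g4 a
    exact ⟨σ b, (h1 _ _).1 k, (h2 b).2.trans (hγ l)⟩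
  · obtain ⟨R, k⟩ := g5 a
    exact ⟨γ R, S.forall.2 fun b l => (h2 b).2.trans (hγ (k b ((h1 _ _).2 l)))⟩
  · obtain ⟨N, k⟩ := g6 (γ R)
    refine ⟨(Finset.range N).sup σ + 1, S.forall.2 fun a l => ?_⟩
    obtain ⟨c, hc, hB⟩ := k a fun b hb => (h2 b).1.trans (hγ (l _ ((h1 _ _).1 hb)))
    exact ⟨σ c, Nat.lt_succ_of_le (Finset.le_sup (f := σ) (Finset.mem_range.2 hc)),
      (h1 _ _).1 hB⟩
  · obtain ⟨a, k⟩ := g7 (γ R)
    refine ⟨σ a, ?_⟩
    by_contra l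
    have := hγ (show h' (σ a) ≤ R by omega)
    have := (h2 a).1
    omega
  · refine ((g8 a).image σ.injective.injOn).mono ?_
    rintro _ ⟨b, ⟨k1, k2, k3⟩, rfl⟩
    exact ⟨(h1 _ _).1 k1, (h2 b).2.trans (hγ (k2.trans (hg (h2 a).1))),
      (h2 a).2.trans (hγ (k3.trans (hg (h2 b).1)))⟩

lemma a_Iso.sim (I : a_Iso B B' h h' σ) (R : a_Rep B h β P) (R' : a_Rep B' h' β' P') :
    Sim P P' := by
  obtain ⟨h1, γ, hγ, h2⟩ := I
  obtain ⟨r1, r2, r3⟩ := R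
  obtain ⟨-, s2, s3⟩ := R'
  choose c hc using r1
  have key : ∀ a i, β' (σ a) = β' (σ (c i)) ↔ β a = i := fun a i => by
    rw [← s2, ← h1, r2, hc]
  refine ⟨γ, hγ, fun i => β' (σ (c i)), fun i j k => (hc i).symm.trans ((key _ _).1 k),
    fun i => ⟨fun x hx => ?_, fun y hy => ?_⟩⟩
  · rcases (r3 _ _).1 hx with rfl | ⟨a, k, rfl⟩
    · exact ⟨0, (s3 _ _).2 (Or.inl rfl), Nat.zero_le _, Nat.zero_le _⟩
    · exact ⟨_, (s3 _ _).2 (Or.inr ⟨σ a, (key _ _).2 k, rfl⟩), h2 a⟩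
  · rcases (s3 _ _).1 hy with rfl | ⟨a, k, rfl⟩
    · exact ⟨0, (r3 _ _).2 (Or.inl rfl), Nat.zero_le _, Nat.zero_le _⟩
    · obtain ⟨a, rfl⟩ := σ.surjective a
      exact ⟨_, (r3 _ _).2 (Or.inr ⟨a, (key _ _).1 k, rfl⟩), h2 a⟩

lemma a_Good.rep (G : a_Good B h) : ∃ β P, a_Rep B h β P := by
  classical
  obtain ⟨g1, g2, g3, -, g5, -, g7, -⟩ := G
  let s : Setoid ℕ := ⟨B, g1, fun k => g2 _ _ k, fun k l => g3 _ _ _ k l⟩
  choose R hR using g5
  have hinf : Infinite (Quotient s) := by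
    by_contra k
    have : Finite (Quotient s) := not_infinite_iff_finite.1 k
    obtain ⟨M, hM⟩ := (finite_range fun q : Quotient s => R q.out).bddAbove
    obtain ⟨a, ha⟩ := g7 M
    have h1 := hM ⟨Quotient.mk s a, rfl⟩
    have h2 := hR (Quotient.mk s a).out a (Quotient.exact (Quotient.out_eq (Quotient.mk s a)))
    simp only at h1
    omega
  obtain ⟨E⟩ : Nonempty (Quotient s ≃ ℕ) := nonempty_equiv_of_countable
  have hb : ∀ a b, B a b ↔ E (Quotient.mk s a) = E (Quotient.mk s b) := fun a b => by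
    rw [E.injective.eq_iff, Quotient.eq]
    exact Iff.rfl
  refine ⟨fun a => E (Quotient.mk s a), fun i => (Finset.range (R (E.symm i).out + 1)).filter
    fun x => x = 0 ∨ ∃ a, E (Quotient.mk s a) = i ∧ h a = x,
    E.surjective.comp Quotient.mk_surjective, hb, fun i x => ?_⟩
  rw [Finset.mem_filter, Finset.mem_range]
  refine ⟨fun k => k.2, fun k => ⟨?_, k⟩⟩
  rcases k with rfl | ⟨a, k, rfl⟩
  · omega
  · refine Nat.lt_succ_of_le (hR _ _ ((hb _ _).2 ?_))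
    rw [Quotient.out_eq, E.apply_symm_apply]
    exact k.symm

lemma a_Rep.prp (R : a_Rep B h β P) (G : a_Good B h) : Prp P := by
  obtain ⟨r1, r2, r3⟩ := R
  refine ⟨fun i => (r3 _ _).2 (Or.inl rfl), fun M => ?_⟩
  obtain ⟨N, hN⟩ := G.2.2.2.2.2.1 M
  refine ((finite_lt_nat N).image β).subset fun i hi => ?_
  obtain ⟨a, rfl⟩ := r1 i
  obtain ⟨c, hc, k⟩ := hN a fun b hb => hi _ ((r3 _ _).2 (Or.inr ⟨b, ((r2 _ _).1 hb).symm, rfl⟩))
  exact ⟨c, hc, ((r2 _ _).1 k).symm⟩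

lemma a_Rep.cl_iff (R : a_Rep B h β P) (s : Finset ℕ) : s ∈ cl P ↔
    ∀ k, ∃ a, ∀ x, x < k → (x ∈ s ↔ x = 0 ∨ ∃ b, B a b ∧ h b = x) := by
  obtain ⟨r1, r2, r3⟩ := R
  refine forall_congr' fun k => ?_
  rw [r1.exists]
  refine exists_congr fun a => ?_
  rw [Finset.ext_iff]
  refine forall_congr' fun x => ?_
  simp only [Finset.mem_filter, r3, r2, eq_comm (a := β a)]
  by_cases l : x < k
  · simp only [l, and_true, true_imp_iff]
    exact iff_comm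
  · simp only [l, and_false, false_imp_iff]

lemma a_Rep.partner (R : a_Rep B h β P) (G : a_Good B h) {γ : ℕ → ℕ} (hγ : Monotone γ) :
    ∃ δ : ℕ → ℕ, Monotone δ ∧ ∀ x j, (∃ y ∈ P j, x ≤ γ y ∧ y ≤ γ x) →
      {b | β b = j ∧ x ≤ δ (h b) ∧ h b ≤ δ x}.Infinite := by
  obtain ⟨r1, r2, r3⟩ := R
  obtain ⟨-, -, -, ⟨M, g4⟩, -, -, -, g, hg, g8⟩ := G
  refine ⟨fun n => γ (g n) + g (γ n) + g M, fun n n' k => ?_, ?_⟩
  · have := hγ (hg k)
    have := hg (hγ k)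
    simp only
    omega
  · rintro x j ⟨y, hy, k1, k2⟩
    rcases (r3 _ _).1 hy with rfl | ⟨a, rfl, rfl⟩
    · obtain ⟨a, rfl⟩ := r1 j
      obtain ⟨c, l1, l2⟩ := g4 a
      refine (g8 c).mono ?_
      rintro b ⟨m1, m2, -⟩
      have := hg l2
      have := hγ (Nat.zero_le (g (h b)))
      exact ⟨((r2 _ _).1 m1).symm.trans ((r2 _ _).1 l1).symm, by simp only; omega,
        by simp only; omega⟩
    · refine (g8 a).mono ?_
      rintro b ⟨m1, m2, m3⟩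
      have := hγ m3
      have := hg k2
      exact ⟨((r2 _ _).1 m1).symm, by simp only; omega, by simp only; omega⟩

lemma a_nr_mono {γ γ' : ℕ → ℕ} (k : ∀ n, γ n ≤ γ' n) {s t : Finset ℕ} (H : Nr γ s t) :
    Nr γ' s t :=
  ⟨fun x hx => (H.1 x hx).imp fun _ l => ⟨l.1, l.2.1.trans (k _), l.2.2.trans (k _)⟩,
    fun x hx => (H.2 x hx).imp fun _ l => ⟨l.1, l.2.1.trans (k _), l.2.2.trans (k _)⟩⟩

lemma a_nr_symm {γ : ℕ → ℕ} {s t : Finset ℕ} (H : Nr γ s t) : Nr γ t s :=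
  ⟨fun x hx => (H.2 x hx).imp fun _ l => ⟨l.1, l.2.2, l.2.1⟩,
    fun x hx => (H.1 x hx).imp fun _ l => ⟨l.1, l.2.2, l.2.1⟩⟩

lemma a_iso_of_sim (R : a_Rep B h β P) (G : a_Good B h) (R' : a_Rep B' h' β' P')
    (G' : a_Good B' h') (S : Sim P P') (S' : Sim P' P) : ∃ σ, a_Iso B B' h h' σ := by
  obtain ⟨γ1, m1, φ, hφ, n1⟩ := S
  obtain ⟨γ2, m2, ψ, hψ, n2⟩ := S'
  have hγ : Monotone fun n => γ1 n + γ2 n := m1.add m2
  obtain ⟨π, hπ, hN⟩ := Function.Embedding.schroeder_bernstein_of_rel hφ hψ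
    (fun i j => Nr (fun n => γ1 n + γ2 n) (P i) (P' j))
    (fun i => a_nr_mono (fun n => Nat.le_add_right _ _) (n1 i))
    (fun j => a_nr_symm (a_nr_mono (fun n => Nat.le_add_left _ _) (n2 j)))
  obtain ⟨δ, hδ, H⟩ := R.partner G hγ
  obtain ⟨δ', hδ', H'⟩ := R'.partner G' hγ
  let Q : ℕ → ℕ → Prop := fun a a' => β' a' = π (β a) ∧
    h a ≤ δ (h' a') + δ' (h' a') ∧ h' a' ≤ δ (h a) + δ' (h a)
  have q1 : ∀ a, {a' | Q a a'}.Infinite := fun a => by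
    refine (H' (h a) (π (β a)) ((hN _).1 _ ((R.2.2 _ _).2 (Or.inr ⟨a, rfl, rfl⟩)))).mono ?_
    rintro b ⟨k1, k2, k3⟩
    exact ⟨k1, by omega, by omega⟩
  have q2 : ∀ a', {a | Q a a'}.Infinite := fun a' => by
    obtain ⟨i, hi⟩ := hπ.2 (β' a')
    refine (H (h' a') i ((a_nr_symm (hN i)).1 _
      ((R'.2.2 _ _).2 (Or.inr ⟨a', hi.symm, rfl⟩)))).mono ?_
    rintro b ⟨k1, k2, k3⟩
    exact ⟨by rw [k1, hi], by omega, by omega⟩
  obtain ⟨f, hf, hf'⟩ := OR.exists_inj q1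
  obtain ⟨g, hg, hg'⟩ := OR.exists_inj (Q := fun a' a => Q a a') q2
  obtain ⟨σ, hσ, hQ⟩ := Function.Embedding.schroeder_bernstein_of_rel hf hg Q hf' hg'
  refine ⟨Equiv.ofBijective σ hσ, fun a b => ?_, fun n => δ n + δ' n, hδ.add hδ',
    fun a => (hQ a).2⟩
  rw [R.2.1, R'.2.1, Equiv.ofBijective_apply, Equiv.ofBijective_apply, (hQ a).1, (hQ b).1,
    hπ.1.eq_iff]

end iso

lemma a_iso_of_cf {e e' : ℕ × ℕ × ℕ → ℕ} {σ : Equiv.Perm ℕ}
    (h1 : OR.Cf e fun p => e' (σ p.1, σ p.2.1, p.2.2))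
    (h2 : OR.Cf (fun p : ℕ × ℕ × ℕ => e' (σ p.1, σ p.2.1, p.2.2)) e) :
    a_Iso (a_bl e) (a_bl e') (a_ht e) (a_ht e') σ := by
  obtain ⟨γ, hγ, k⟩ := a_cf h1
  obtain ⟨γ', hγ', k'⟩ := a_cf h2
  refine ⟨fun a b => ⟨fun ⟨m, hm⟩ => ⟨γ' m, fun j => (k' (a, b, j + 1)).trans (hγ' (hm j))⟩,
    fun ⟨m, hm⟩ => ⟨γ m, fun j => (k (a, b, j + 1)).trans (hγ (hm j))⟩⟩,
    fun n => γ n + γ' n, hγ.add hγ', fun a => ⟨?_, ?_⟩⟩
  · exact (k (a, a, 0)).trans (Nat.le_add_right _ _)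
  · exact (k' (a, a, 0)).trans (Nat.le_add_left _ _)

lemma a_inv {e e' : ℕ × ℕ × ℕ → ℕ} (h : OR.Es e e') (k : e ∈ a_D) : e' ∈ a_D := by
  obtain ⟨σ, h1, h2⟩ := h
  have I := a_iso_of_cf h1 h2
  exact ⟨I.good k.1, a_cf_of σ (a_cf_trans h2 (a_cf_trans k.2.1 I.cf.1)),
    a_cf_of σ (a_cf_trans I.cf.2 (a_cf_trans k.2.2 h1))⟩

lemma a_es {e e' : ℕ × ℕ × ℕ → ℕ} (k : e ∈ a_D) (k' : e' ∈ a_D) {σ : Equiv.Perm ℕ}
    (I : a_Iso (a_bl e) (a_bl e') (a_ht e) (a_ht e') σ) : OR.Es e e' :=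
  ⟨σ, a_cf_trans k.2.1 (a_cf_trans I.cf.1
      (a_cf_comp k'.2.2 fun p : ℕ × ℕ × ℕ => (σ p.1, σ p.2.1, p.2.2))),
    a_cf_trans (a_cf_comp k'.2.1 fun p : ℕ × ℕ × ℕ => (σ p.1, σ p.2.1, p.2.2))
      (a_cf_trans I.cf.2 k.2.2)⟩

lemma a_bl_enc (B : ℕ → ℕ → Prop) (h : ℕ → ℕ) : a_bl (a_enc B h) = B := by
  funext a b
  apply propext
  constructor
  · rintro ⟨m, hm⟩
    by_contra k
    have := hm m
    simp [a_enc, k] at this
  · exact fun k => ⟨0, fun j => by simp [a_enc, k]⟩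

lemma a_ht_enc (B : ℕ → ℕ → Prop) (h : ℕ → ℕ) : a_ht (a_enc B h) = h := by
  funext a
  simp [a_ht, a_enc]

lemma a_real {Q : ℕ → Finset ℕ} (hQ : Prp Q) : ∃ B h β, a_Good B h ∧ a_Rep B h β Q := by
  classical
  let h : ℕ → ℕ := fun a => if a.unpair.2.unpair.1 ∈ Q a.unpair.1 then a.unpair.2.unpair.1 else 0
  have h0 : ∀ a, h a ∈ Q a.unpair.1 := fun a => by
    simp only [h]
    split_ifs with k
    exacts [k, hQ.1 _]
  have h1 : ∀ i x n, x ∈ Q i → h (Nat.pair i (Nat.pair x n)) = x := fun i x n k => by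
    simp [h, k]
  refine ⟨fun a b => a.unpair.1 = b.unpair.1, h, fun a => a.unpair.1,
    ⟨fun _ => rfl, fun _ _ => Eq.symm, fun _ _ _ => Eq.trans, ⟨0, fun a => ?_⟩, fun a => ?_,
      fun R => ?_, fun R => ?_, id, monotone_id, fun a => ?_⟩,
    fun i => ⟨Nat.pair i 0, by simp⟩, fun _ _ => Iff.rfl, fun i x => ⟨fun k => ?_, ?_⟩⟩
  · exact ⟨Nat.pair a.unpair.1 (Nat.pair 0 0), by simp, (h1 _ _ _ (hQ.1 _)).le⟩
  · exact ⟨(Q a.unpair.1).sup id, fun b k => Finset.le_sup (f := id) (by rw [k]; exact h0 b)⟩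
  · obtain ⟨M, hM⟩ := ((hQ.2 R).image fun i => Nat.pair i 0).bddAbove
    refine ⟨M + 1, fun a k => ⟨Nat.pair a.unpair.1 0, Nat.lt_succ_of_le (hM ⟨_, ?_, rfl⟩), by simp⟩⟩
    intro x hx
    exact (h1 _ _ 0 hx).symm.le.trans (k _ (by simp))
  · by_contra k
    refine infinite_univ ((hQ.2 R).subset fun i _ x hx => ?_)
    by_contra l
    exact k ⟨Nat.pair i (Nat.pair x 0), by rw [h1 _ _ _ hx]; omega⟩
  · refine infinite_of_injective_forall_mem
      (f := fun n => Nat.pair a.unpair.1 (Nat.pair (h a) n)) (fun n n' k => ?_) fun n => ?_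
    · simpa using k
    · exact ⟨by simp, (h1 _ _ _ (h0 a)).le, (h1 _ _ _ (h0 a)).ge⟩
  · exact Or.inr ⟨Nat.pair i (Nat.pair x 0), by simp, h1 _ _ _ k⟩
  · rintro (rfl | ⟨a, rfl, rfl⟩)
    exacts [hQ.1 _, h0 a]

lemma a_mbl (a b : ℕ) : Measurable fun e => a_bl e a b :=
  Measurable.exists fun _ => Measurable.forall fun _ =>
    OR.meas_le (measurable_pi_apply _) measurable_const

lemma a_mht (a : ℕ) : Measurable fun e => a_ht e a := measurable_pi_apply _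

lemma a_menc (p : ℕ × ℕ × ℕ) : Measurable fun e => a_enc (a_bl e) (a_ht e) p := by
  classical
  unfold a_enc
  split_ifs
  · exact a_mht _
  · exact Measurable.ite (a_mbl _ _).setOf measurable_const measurable_const

lemma a_meas : MeasurableSet a_D := by
  have c : ∀ a n, Measurable fun e => a_ht e a ≤ n := fun a n =>
    OR.meas_le (a_mht a) measurable_const
  have c' : ∀ a n, Measurable fun e => n ≤ a_ht e a := fun a n =>
    OR.meas_le measurable_const (a_mht a)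
  unfold a_D a_Good OR.Cf
  simp only [a_inf_iff]
  refine Measurable.setOf (Measurable.and ?_ (Measurable.and ?_ ?_))
  · refine (Measurable.forall fun a => a_mbl a a).and
      ((Measurable.forall fun a => Measurable.forall fun b => (a_mbl a b).imp (a_mbl b a)).and
      ((Measurable.forall fun a => Measurable.forall fun b => Measurable.forall fun d =>
        (a_mbl a b).imp ((a_mbl b d).imp (a_mbl a d))).and
      ((Measurable.exists fun R => Measurable.forall fun a => Measurable.exists fun b =>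
        (a_mbl a b).and (c b R)).and
      ((Measurable.forall fun a => Measurable.exists fun R => Measurable.forall fun b =>
        (a_mbl a b).imp (c b R)).and
      ((Measurable.forall fun R => Measurable.exists fun N => Measurable.forall fun a =>
        (Measurable.forall fun b => (a_mbl a b).imp (c b R)).imp
          (Measurable.exists fun d => measurable_const.and (a_mbl a d))).and
      ((Measurable.forall fun R => Measurable.exists fun a => c' a _).and ?_))))))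
    exact Measurable.forall fun r => Measurable.exists fun r' => Measurable.forall fun k =>
      Measurable.exists fun k' => Measurable.forall fun a => (c a k).imp
        (OR.meas_inf fun b => (a_mbl a b).and ((c b k').and ((c' a r').imp (c' b r))))
  · exact Measurable.forall fun m => Measurable.exists fun m' => Measurable.forall fun p =>
      (OR.meas_le (a_menc p) measurable_const).imp
        (OR.meas_le (measurable_pi_apply p) measurable_const)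
  · exact Measurable.forall fun m => Measurable.exists fun m' => Measurable.forall fun p =>
      (OR.meas_le (measurable_pi_apply p) measurable_const).imp
        (OR.meas_le (a_menc p) measurable_const)

theorem tower_code : ∃ (D : Set (ℕ × ℕ × ℕ → ℕ)) (P : (ℕ × ℕ × ℕ → ℕ) → ℕ → Finset ℕ),
    MeasurableSet D ∧ (∀ e e', OR.Es e e' → e ∈ D → e' ∈ D) ∧ (∀ e ∈ D, Prp (P e)) ∧
    (∀ s, MeasurableSet {e ∈ D | s ∈ cl (P e)}) ∧
    (∀ e ∈ D, ∀ e' ∈ D, OR.Es e e' ↔ Sim (P e) (P e') ∧ Sim (P e') (P e)) ∧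
    ∀ Q, Prp Q → ∃ e ∈ D, Sim (P e) Q ∧ Sim Q (P e) := by
  have ex : ∀ e, ∃ β P, e ∈ a_D → a_Rep (a_bl e) (a_ht e) β P := fun e => by
    by_cases k : e ∈ a_D
    · obtain ⟨β, P, R⟩ := k.1.rep
      exact ⟨β, P, fun _ => R⟩
    · exact ⟨id, fun _ => ∅, fun l => (k l).elim⟩
  choose β P R using ex
  refine ⟨a_D, P, a_meas, fun _ _ => a_inv, fun e k => (R e k).prp k.1, fun s => ?_,
    fun e k e' k' => ⟨?_, ?_⟩, fun Q hQ => ?_⟩
  · have : {e ∈ a_D | s ∈ cl (P e)} = a_D ∩ {e | ∀ k, ∃ a, ∀ x, x < k →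
        (x ∈ s ↔ x = 0 ∨ ∃ b, a_bl e a b ∧ a_ht e b = x)} := by
      ext e
      exact and_congr_right fun k => (R e k).cl_iff s
    rw [this]
    refine a_meas.inter (Measurable.setOf ?_)
    exact Measurable.forall fun k => Measurable.exists fun a => Measurable.forall fun x =>
      measurable_const.imp (measurable_const.iff (measurable_const.or
        (Measurable.exists fun b => (a_mbl a b).and ((a_mht b).eq_const x))))
  · rintro ⟨σ, h1, h2⟩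
    have I := a_iso_of_cf h1 h2
    exact ⟨I.sim (R e k) (R e' k'), I.symm.sim (R e' k') (R e k)⟩
  · rintro ⟨S, S'⟩
    obtain ⟨σ, I⟩ := a_iso_of_sim (R e k) k.1 (R e' k') k'.1 S S'
    exact a_es k k' I
  · obtain ⟨B, h, b, G, RQ⟩ := a_real hQ
    have k : a_enc B h ∈ a_D := by
      refine ⟨?_, ?_, ?_⟩ <;> rw [a_bl_enc, a_ht_enc]
      exacts [G, fun m => ⟨m, fun _ l => l⟩, fun m => ⟨m, fun _ l => l⟩]
    have R' := R _ k
    rw [a_bl_enc, a_ht_enc] at R'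
    have I : a_Iso B B h h 1 := ⟨fun _ _ => Iff.rfl, id, monotone_id, fun _ => ⟨le_rfl, le_rfl⟩⟩
    exact ⟨_, k, I.sim R' RQ, I.sim RQ R'⟩

end Pool.Agent.P.MP_52b1ec_lc.TH
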