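import Pool.Agent.P.MP_52b1ec_lc.Y.ODefs

namespace Pool.Agent.P.MP_52b1ec_lc.TH

open Set

/-- increasing sequences inside a set -/
def In (X : ℕ → ℕ) (A : Set ℕ) : Prop := StrictMono X ∧ ∀ i, X i ∈ A

/-- locally constant arrays -/
def Arr {Q : Type} (f : (ℕ → ℕ) → Q) (A : Set ℕ) : Prop :=
  A.Infinite ∧ ∀ X, In X A → ∃ n, ∀ Y, In Y A → (∀ i < n, Y i = X i) → f Y = f X

/-- bad arrays -/
def Bad {Q : Type} (r : Q → Q → Prop) (f : (ℕ → ℕ) → Q) (A : Set ℕ) : Prop :=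
  Arr f A ∧ ∀ X, In X A → ¬ r (f X) (f fun i => X (i + 1))

/-- well-founded tree types -/
inductive T : Type
  | mk (A : Set (Finset ℕ)) (c : A → T) (R : Set (Set (Finset ℕ))) : T

/-- some descendant has the property -/
def T.sk (P : T → Prop) : T → Prop
  | mk A c R => P (mk A c R) ∨ ∃ j, sk P (c j)

/-- one step of simulation -/
def St {A : Set (Finset ℕ)} (L : A → T → Prop) (R : Set (Set (Finset ℕ))) : T → Prop
  | .mk A' c' R' => (∀ i, ∃ j, L i (c' j)) ∧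
      ∀ W ∈ R, ∃ W' ∈ R', ∀ i : A, i.1 ∈ W → ∃ j : A', j.1 ∈ W' ∧ L i (c' j)

/-- simulation -/
def T.le : T → T → Prop
  | mk _ c R => sk (St (fun i => le (c i)) R)

/-- strong simulation -/
def T.st : T → T → Prop
  | mk _ c R => St (fun i => le (c i)) R

/-- children -/
def T.Kid (x : T) : T → Prop
  | mk _ c _ => ∃ j, c j = x

/-- countably many types -/
def Small (S : Set T) : Prop := ∃ C : Set T, C.Countable ∧ ∀ x ∈ S, ∃ y ∈ C, x.le y ∧ y.le x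

/-- end extension whose first new point is `l` -/
def Ext (s : Finset ℕ) (l : ℕ) (t : Finset ℕ) : Prop := l ∈ t ∧ s = t.filter (· < l)

/-- closed families of finite sets containing zero -/
def Cls (K : Set (Finset ℕ)) : Prop := (∀ s ∈ K, 0 ∈ s) ∧
  ∀ s : Finset ℕ, (∀ k, ∃ t ∈ K, t.filter (· < k) = s.filter (· < k)) → s ∈ K

/-- families with a perfect kernel -/
def Ker (K : Set (Finset ℕ)) : Prop :=
  ∃ N ⊆ K, N.Nonempty ∧ ∀ s ∈ N, ∀ k, ∃ l t, k ≤ l ∧ Ext s l t ∧ t ∈ N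

/-- children of a node for a cut function -/
def Ch (K : Set (Finset ℕ)) (κ : Finset ℕ → ℕ) (s : Finset ℕ) (l : ℕ) (t : Finset ℕ) : Prop :=
  t ∈ K ∧ Ext s l t ∧ ∀ m ∈ t, l < m → t.filter (· < m) ∈ K → m < κ (t.filter (· < m))

/-- the type read off from the children that start late -/
def nd (K : Set (Finset ℕ)) (κ : Finset ℕ → ℕ) (μ : Finset ℕ → ℕ → ℕ) (τ : Finset ℕ → T)
    (s : Finset ℕ) (k : ℕ) : T :=
  .mk {t | ∃ l, k ≤ l ∧ Ch K κ s l t} (fun i => τ i.1)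
    {W | ∃ l, k ≤ l ∧ W = {t | Ch K κ s l t ∧ ∃ x ∈ t, μ s l ≤ x}}

/-- an assignment of types to the nodes of a family -/
structure Typ (K : Set (Finset ℕ)) where
  κ : Finset ℕ → ℕ
  μ : Finset ℕ → ℕ → ℕ
  τ : Finset ℕ → T
  hτ : ∀ s ∈ K, τ s = nd K κ μ τ s (κ s)
  hκ : ∀ s ∈ K, ∀ k, (τ s).st (nd K κ μ τ s k)
  hμ : ∀ s l, (s ∈ K ∧ κ s ≤ l) ∨ s = ∅ → ∀ N t, Ch K κ s l t → (∃ x ∈ t, μ s l ≤ x) →
    ∃ u, Ch K κ s l u ∧ (∃ x ∈ u, N ≤ x) ∧ (τ t).le (τ u)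

/-- the type of the family -/
def Typ.root {K : Set (Finset ℕ)} (D : Typ K) : T := nd K D.κ D.μ D.τ ∅ 0

/-- proper families -/
def Prp (P : ℕ → Finset ℕ) : Prop := (∀ i, 0 ∈ P i) ∧ ∀ R, {i | ∀ x ∈ P i, x ≤ R}.Finite

/-- the finite sets in the closure -/
def cl (P : ℕ → Finset ℕ) : Set (Finset ℕ) :=
  {s | ∀ k, ∃ i, (P i).filter (· < k) = s.filter (· < k)}

/-- closeness on the scale `γ` -/
def Nr (γ : ℕ → ℕ) (s t : Finset ℕ) : Prop :=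
  (∀ x ∈ s, ∃ y ∈ t, x ≤ γ y ∧ y ≤ γ x) ∧ ∀ y ∈ t, ∃ x ∈ s, x ≤ γ y ∧ y ≤ γ x

/-- uniform matching of one family into another -/
def Sim (P Q : ℕ → Finset ℕ) : Prop :=
  ∃ γ, Monotone γ ∧ ∃ φ : ℕ → ℕ, Function.Injective φ ∧ ∀ i, Nr γ (P i) (Q (φ i))

end Pool.Agent.P.MP_52b1ec_lc.TH
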