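import Pool.Agent.P.MP_52b1ec_lc.T.Typ

namespace Pool.Agent.P.MP_52b1ec_lc.TH

open Set

theorem f_iUnion {ι : Type} [Countable ι] {S : ι → Set T} (h : ∀ i, Small (S i)) :
    Small (⋃ i, S i) := by
  choose C hC hS using h
  refine ⟨⋃ i, C i, countable_iUnion hC, fun x hx => ?_⟩
  obtain ⟨i, hi⟩ := mem_iUnion.1 hx
  obtain ⟨y, hy, q⟩ := hS i x hi
  exact ⟨y, mem_iUnion.2 ⟨i, hy⟩, q⟩

theorem f_union {S S' : Set T} (h : Small S) (k : Small S') : Small (S ∪ S') := by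
  obtain ⟨C, hC, hS⟩ := h
  obtain ⟨C', hC', hS'⟩ := k
  refine ⟨C ∪ C', hC.union hC', ?_⟩
  rintro x (hx | hx)
  · obtain ⟨y, hy, q⟩ := hS x hx
    exact ⟨y, Or.inl hy, q⟩
  · obtain ⟨y, hy, q⟩ := hS' x hx
    exact ⟨y, Or.inr hy, q⟩

theorem f_count {C : Set T} (h : C.Countable) : Small C :=
  ⟨C, h, fun x hx => ⟨x, hx, x.le_refl, x.le_refl⟩⟩

theorem f_split {ι : Type} [Countable ι] (p : ι → Set T → Prop)
    (anti : ∀ i S S', S ⊆ S' → p i S' → p i S) (h : ∀ S, Small S → ∃ i, p i S) :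
    ∃ i, ∀ S, Small S → p i S := by
  by_contra hn
  push Not at hn
  choose S hS hp using hn
  obtain ⟨i, hi⟩ := h _ (f_iUnion hS)
  exact hp i (anti i _ _ (subset_iUnion S i) hi)

/-- the nodes of `L` escape every small set of types together on a cone -/
def f_Lg (F : (ℕ → ℕ) → Set (Finset ℕ)) (D : ∀ z, Typ (F z)) (n : ℕ) (u : ℕ → ℕ)
    (L : Finset (Finset ℕ)) : Prop :=
  ∀ S, Small S → ∃ z, (∀ i < n, z i = u i) ∧ ∀ s ∈ L, s ∈ F z ∧ (D z).τ s ∉ S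

variable {F : (ℕ → ℕ) → Set (Finset ℕ)} {D : ∀ z, Typ (F z)}

theorem f_letter {n : ℕ} {u : ℕ → ℕ} {L : Finset (Finset ℕ)} (h : f_Lg F D n u L) :
    ∃ a, f_Lg F D (n + 1) (Function.update u n a) L := by
  refine f_split (fun a S => ∃ z, (∀ i < n + 1, z i = Function.update u n a i) ∧
    ∀ s ∈ L, s ∈ F z ∧ (D z).τ s ∉ S) ?_ fun S hS => ?_
  · rintro a S S' hs ⟨z, h1, h2⟩
    exact ⟨z, h1, fun s q => ⟨(h2 s q).1, fun r => (h2 s q).2 (hs r)⟩⟩
  · obtain ⟨z, h1, h2⟩ := h S hS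
    refine ⟨z n, z, fun i hi => ?_, h2⟩
    rcases (Nat.lt_succ_iff.1 hi).eq_or_lt with rfl | q
    · simp
    · rw [Function.update_of_ne q.ne, h1 i q]

theorem f_child {n : ℕ} {u : ℕ → ℕ} {L : Finset (Finset ℕ)} (h : f_Lg F D n u L) {s : Finset ℕ}
    (hs : s ∈ L) (k : ℕ) : ∃ l t, k ≤ l ∧ Ext s l t ∧ f_Lg F D n u (insert t L) := by
  obtain ⟨⟨l, t⟩, q⟩ := f_split (fun (a : ℕ × Finset ℕ) S => k ≤ a.1 ∧ Ext s a.1 a.2 ∧
      ∃ z, (∀ i < n, z i = u i) ∧ ∀ s' ∈ insert a.2 L, s' ∈ F z ∧ (D z).τ s' ∉ S) (by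
    rintro a S S' hs ⟨q1, q2, z, h1, h2⟩
    exact ⟨q1, q2, z, h1, fun s q => ⟨(h2 s q).1, fun r => (h2 s q).2 (hs r)⟩⟩) (by
    intro S hS
    obtain ⟨C, hC, hp⟩ := hS.plus
    obtain ⟨z, h1, h2⟩ := h _ (f_union hS (f_count hC).down)
    by_contra hn
    obtain ⟨y, hy, r, -⟩ := hp (nd (F z) (D z).κ (D z).μ (D z).τ s k) (by
      rintro y ⟨⟨t, l, hl, ht⟩, rfl⟩
      by_contra hy
      refine hn ⟨(l, t), hl, ht.2.1, z, h1, fun s' hs' => ?_⟩
      rcases Finset.mem_insert.1 hs' with rfl | hs'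
      · exact ⟨ht.1, hy⟩
      · exact ⟨(h2 s' hs').1, fun w => (h2 s' hs').2 (Or.inl w)⟩)
    exact (h2 s hs).2 (Or.inr ⟨y, hy, (((D z).hκ s (h2 s hs).1 k).trans r).le⟩))
  exact ⟨l, t, (q ∅ (f_count countable_empty)).1, (q ∅ (f_count countable_empty)).2.1,
    fun S hS => (q S hS).2.2⟩

theorem f_all {n : ℕ} {u : ℕ → ℕ} {L : Finset (Finset ℕ)} (h : f_Lg F D n u L) (k : ℕ)
    (M : Finset (Finset ℕ)) (hM : M ⊆ L) :
    ∃ L', L ⊆ L' ∧ f_Lg F D n u L' ∧ ∀ s ∈ M, ∃ l t, k ≤ l ∧ Ext s l t ∧ t ∈ L' := by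
  induction M using Finset.induction_on with
  | empty => exact ⟨L, Finset.Subset.refl L, h, by simp⟩
  | insert s M _ ih =>
    obtain ⟨L', h1, h2, h3⟩ := ih ((Finset.subset_insert s M).trans hM)
    obtain ⟨l, t, q1, q2, q3⟩ := f_child h2 (h1 (hM (Finset.mem_insert_self s M))) k
    refine ⟨insert t L', h1.trans (Finset.subset_insert t L'), q3, fun s' hs' => ?_⟩
    rcases Finset.mem_insert.1 hs' with rfl | hs'
    · exact ⟨l, t, q1, q2, Finset.mem_insert_self t L'⟩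
    · obtain ⟨l', t', r1, r2, r3⟩ := h3 s' hs'
      exact ⟨l', t', r1, r2, Finset.mem_insert_of_mem r3⟩

theorem f_core (D : ∀ z, Typ (F z))
    (hF : ∀ z s, (∀ n, ∃ z', (∀ i < n, z' i = z i) ∧ s ∈ F z') → s ∈ F z)
    (h : ∀ z, ¬ Ker (F z)) : ∃ S, Small S ∧ ∀ z, ∀ s ∈ F z, (D z).τ s ∈ S := by
  by_contra hn
  obtain ⟨s₀, h0⟩ : ∃ s, f_Lg F D 0 (fun _ => 0) {s} := by
    refine f_split (fun s S => ∃ z, (∀ i < 0, z i = (fun _ => 0) i) ∧
      ∀ s' ∈ ({s} : Finset (Finset ℕ)), s' ∈ F z ∧ (D z).τ s' ∉ S) ?_ fun S hS => ?_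
    · rintro a S S' hs ⟨z, h1, h2⟩
      exact ⟨z, h1, fun s q => ⟨(h2 s q).1, fun r => (h2 s q).2 (hs r)⟩⟩
    · by_contra hq
      refine hn ⟨S, hS, fun z s hs => ?_⟩
      by_contra hr
      exact hq ⟨s, z, by simp, fun s' e => by rw [Finset.mem_singleton.1 e]; exact ⟨hs, hr⟩⟩
  have step : ∀ (n : ℕ) (p : (ℕ → ℕ) × Finset (Finset ℕ)), ∃ q : (ℕ → ℕ) × Finset (Finset ℕ),
      f_Lg F D n p.1 p.2 → f_Lg F D (n + 1) q.1 q.2 ∧ (∀ i < n, q.1 i = p.1 i) ∧ p.2 ⊆ q.2 ∧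
        ∀ s ∈ p.2, ∃ l t, n ≤ l ∧ Ext s l t ∧ t ∈ q.2 := by
    intro n p
    by_cases hp : f_Lg F D n p.1 p.2
    · obtain ⟨L', h1, h2, h3⟩ := f_all hp n p.2 (Finset.Subset.refl _)
      obtain ⟨a, ha⟩ := f_letter h2
      exact ⟨(Function.update p.1 n a, L'), fun _ =>
        ⟨ha, fun i hi => Function.update_of_ne hi.ne _ _, h1, h3⟩⟩
    · exact ⟨p, fun q => absurd q hp⟩
  choose g hg using step
  let sq : ℕ → (ℕ → ℕ) × Finset (Finset ℕ) := fun n => Nat.rec (fun _ => 0, {s₀}) g n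
  have hL : ∀ n, f_Lg F D n (sq n).1 (sq n).2 := fun n => by
    induction n with
    | zero => exact h0
    | succ n ih => exact (hg n _ ih).1
  have hm : ∀ n m, n ≤ m → (∀ i < n, (sq m).1 i = (sq n).1 i) ∧ (sq n).2 ⊆ (sq m).2 := by
    intro n m hnm
    induction m, hnm using Nat.le_induction with
    | base => exact ⟨fun _ _ => rfl, Finset.Subset.refl _⟩
    | succ m hnm ih =>
      obtain ⟨-, q1, q2, -⟩ := hg m _ (hL m)
      exact ⟨fun i hi => (q1 i (hi.trans_le hnm)).trans (ih.1 i hi), ih.2.trans q2⟩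
  refine h (fun i => (sq (i + 1)).1 i) ⟨{s | ∃ n, s ∈ (sq n).2}, ?_,
    ⟨s₀, 0, Finset.mem_singleton_self s₀⟩, ?_⟩
  · rintro s ⟨n, hs⟩
    refine hF _ s fun m => ?_
    obtain ⟨z, h1, h2⟩ := hL (max n m) ∅ (f_count countable_empty)
    refine ⟨z, fun i hi => ?_, (h2 s ((hm _ _ (le_max_left n m)).2 hs)).1⟩
    have hi' : i < max n m := hi.trans_le (le_max_right n m)
    exact (h1 i hi').trans ((hm (i + 1) _ hi').1 i (Nat.lt_succ_self i))
  · rintro s ⟨n, hs⟩ k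
    obtain ⟨l, t, q1, q2, q3⟩ := (hg _ _ (hL (max n k))).2.2.2 s ((hm _ _ (le_max_left n k)).2 hs)
    exact ⟨l, t, (le_max_right n k).trans q1, q2, max n k + 1, q3⟩

theorem few {X : Type} [MeasurableSpace X] [StandardBorelSpace X] {B : Set X}
    (hB : MeasurableSet B) (K : X → Set (Finset ℕ)) (hK : ∀ s, MeasurableSet {x ∈ B | s ∈ K x})
    (h : ∀ x ∈ B, Cls (K x) ∧ ¬ Ker (K x)) : ∃ n : X → ℕ, ∀ x ∈ B, ∀ y ∈ B, n x = n y →
      ∃ (D : Typ (K x)) (E : Typ (K y)), D.root.st E.root := by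
  classical
  let d : ∀ M : Set (Finset ℕ), Cls M ∧ ¬ Ker M → Typ M := fun M q => (exists_typ q.1 q.2).some
  obtain ⟨S, hS, hd⟩ : ∃ S, Small S ∧ ∀ x (hx : x ∈ B), ∀ s ∈ K x, (d _ (h x hx)).τ s ∈ S := by
    let φ : X → Finset ℕ → Bool := fun x s => decide (x ∈ B ∧ s ∈ K x)
    have hφ : Measurable φ := measurable_pi_lambda _ fun s => measurable_to_bool (by
      convert hK s using 1
      ext x
      simp [φ])
    have hφK : ∀ x ∈ B, {s | φ x s = true} = K x := fun x hx => by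
      ext s
      simp [φ, hx]
    have ha := hB.analyticSet_image hφ
    rw [MeasureTheory.AnalyticSet] at ha
    rcases ha with ha | ⟨f, hf, hr⟩
    · exact ⟨∅, f_count countable_empty, fun x hx =>
        absurd (ha ▸ mem_image_of_mem φ hx) (notMem_empty _)⟩
    · have hz : ∀ z, Cls {s | f z s = true} ∧ ¬ Ker {s | f z s = true} := fun z => by
        obtain ⟨x, hx, e⟩ : f z ∈ φ '' B := hr ▸ mem_range_self z
        rw [← e, hφK x hx]
        exact h x hx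
      obtain ⟨S, hS, q⟩ := f_core (F := fun z => {s | f z s = true}) (fun z => d _ (hz z))
        (fun z s hs => by
          choose w h1 h2 using hs
          have ht : Filter.Tendsto w Filter.atTop (nhds z) := tendsto_pi_nhds.2 fun i =>
            tendsto_const_nhds.congr' (Filter.eventually_atTop.2 ⟨i + 1, fun n hn => (h1 n i hn).symm⟩)
          have hc : IsClosed {v | f v s = true} :=
            isClosed_eq ((continuous_apply s).comp hf) continuous_const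
          exact hc.mem_of_tendsto ht (Filter.Eventually.of_forall h2)) fun z => (hz z).2
      refine ⟨S, hS, fun x hx => ?_⟩
      obtain ⟨z, e⟩ : φ x ∈ range f := hr ▸ mem_image_of_mem φ hx
      have key : ∀ M (hM : Cls M ∧ ¬ Ker M), {s | f z s = true} = M → ∀ s ∈ M, (d M hM).τ s ∈ S := by
        rintro _ _ rfl
        exact q z
      exact key _ (h x hx) (by rw [e, hφK x hx])
  obtain ⟨C, hC, hp⟩ := hS.plus
  obtain ⟨e, he⟩ := countable_iff_exists_injOn.1 hC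
  have hy : ∀ x (hx : x ∈ B), ∃ y ∈ C, (d _ (h x hx)).root.st y ∧ y.st (d _ (h x hx)).root :=
    fun x hx => hp _ (by
      rintro y ⟨⟨t, l, -, ht⟩, rfl⟩
      exact hd x hx t ht.1)
  choose y y1 y2 y3 using hy
  refine ⟨fun x => if hx : x ∈ B then e (y x hx) else 0, fun x hx x' hx' q => ?_⟩
  simp only [dif_pos hx, dif_pos hx'] at q
  exact ⟨_, _, (y2 x hx).trans (he (y1 x hx) (y1 x' hx') q ▸ y3 x' hx')⟩

end Pool.Agent.P.MP_52b1ec_lc.TH
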