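import Pool.Agent.P.MP_52b1ec_lc.T.Defs

namespace Pool.Agent.P.MP_52b1ec_lc.TH

open Set

theorem meas_graphIso (G : SimpleGraph ℕ) : MeasurableSet {H | GraphIso H G} :=
  measurableSet_graphIso G

end Pool.Agent.P.MP_52b1ec_lc.TH
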