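import Pool.Agent.P.MP_52b1ec_lc.T.Sim
import Pool.Agent.P.MP_52b1ec_lc.T.Few
import Pool.Agent.P.MP_52b1ec_lc.T.Graph
import Pool.Agent.P.MP_52b1ec_lc.T.Code
import Pool.Agent.P.MP_52b1ec_lc.Y.OGlue

namespace Pool.Agent.P.MP_52b1ec_lc.TH

open Set

lemma Sim.trans {P Q R : ℕ → Finset ℕ} (h : Sim P Q) (k : Sim Q R) : Sim P R := by
  obtain ⟨γ, a, φ, b, c⟩ := h
  obtain ⟨δ, d, ψ, e, f⟩ := k
  have g : ∀ {x y z}, x ≤ γ y ∧ y ≤ γ x → y ≤ δ z ∧ z ≤ δ y →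
      x ≤ (γ ∘ δ + δ ∘ γ) z ∧ z ≤ (γ ∘ δ + δ ∘ γ) x := fun h k =>
    ⟨(h.1.trans (a k.1)).trans (Nat.le_add_right _ _),
      (k.2.trans (d h.2)).trans (Nat.le_add_left _ _)⟩
  refine ⟨γ ∘ δ + δ ∘ γ, (a.comp d).add (d.comp a), ψ ∘ φ, e.comp b, fun i =>
    ⟨fun x hx => ?_, fun z hz => ?_⟩⟩
  · obtain ⟨y, p, q⟩ := (c i).1 x hx
    exact ((f _).1 y p).imp fun z r => ⟨r.1, g q r.2⟩
  · obtain ⟨y, p, q⟩ := (f _).2 z hz
    exact ((c i).2 y p).imp fun x r => ⟨r.1, g r.2 q⟩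

lemma es_eqv : Equivalence OR.Es := by
  obtain ⟨W, _, _, ⟨R⟩⟩ := OR.exists_rig
  simp only [show OR.Es = fun e e' => TopIso (OR.GS R e) (OR.GS R e') from
    funext₂ fun _ _ => propext OR.topIso_iff.symm]
  exact ⟨fun _ => topIso_equivalence.refl _, topIso_equivalence.symm, topIso_equivalence.trans⟩

theorem thin : ∃ C ⊆ ProCountable, MeasurableSet C ∧ Invariant C ∧
    (∃ G ∈ C, ¬ MeasurableSet {H | TopIso G H}) ∧ ¬ BorelRed (IsoOn C) GraphIso ∧ ¬ BorelRed (@Eq (ℕ → Bool)) (IsoOn C) := by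
  obtain ⟨D, P, d1, d2, d3, d4, d5, d6⟩ := tower_code
  obtain ⟨C, c1, c2, c3, ⟨f, f1, f2⟩, g, g1, g2⟩ := OR.realize es_eqv measurable_id measurable_id
    .univ (fun _ _ => Iff.rfl) (fun e => iff_of_true trivial ⟨e, es_eqv.refl e⟩)
    (fun _ _ => es_eqv.symm) d1 d2
  have top : ∀ e ∈ D, ∀ e' ∈ D, Ker (cl (P e)) → Ker (cl (P e')) → OR.Es e e' :=
    fun e h e' h' k k' => (d5 e h e' h').2 ⟨sim_ker (d3 _ h) (d3 _ h') k', sim_ker (d3 _ h') (d3 _ h) k⟩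
  have key : ∀ {X : Type} [MeasurableSpace X] [StandardBorelSpace X] (e : X → _) (B : Set X),
      Measurable e → MeasurableSet B → (∀ x ∈ B, e x ∈ D ∧ ¬ Ker (cl (P (e x)))) →
      ∃ n : X → ℕ, ∀ x ∈ B, ∀ y ∈ B, n x = n y → OR.Es (e x) (e y) := fun e B he hB h => by
    refine (few hB (fun x => cl (P (e x))) (fun s => ?_)
      fun x hx => ⟨(d3 _ (h x hx).1).cls, (h x hx).2⟩).imp fun n hn x hx y hy k => ?_
    · convert hB.inter (he (d4 s)) using 1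
      exact Set.ext fun x => and_congr_right fun hx => (and_iff_right (h x hx).1).symm
    · obtain ⟨_, _, a⟩ := hn x hx y hy k
      obtain ⟨_, _, b⟩ := hn y hy x hx k.symm
      exact (d5 _ (h x hx).1 _ (h y hy).1).2 ⟨sim_typ (d3 _ (h x hx).1) (d3 _ (h y hy).1) _ _ a,
        sim_typ (d3 _ (h y hy).1) (d3 _ (h x hx).1) _ _ b⟩
  have nb : ∃ G ∈ C, ¬ MeasurableSet {H | TopIso G H} := by
    by_contra! hC
    have hB : MeasurableSet {e ∈ D | ¬ Ker (cl (P e))} := by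
      by_cases h : ∃ e ∈ D, Ker (cl (P e))
      · obtain ⟨e, h, k⟩ := h
        convert d1.diff (d1.subtype_image ((measurable_subtype_coe.comp f1)
          (hC _ (f ⟨e, h⟩).2))) using 1
        refine Set.ext fun x => and_congr_right fun hx => not_congr ⟨fun j => ⟨⟨x, hx⟩,
          (f2 ⟨e, h⟩ _).1 (top _ h _ hx k j), rfl⟩, ?_⟩
        rintro ⟨x, j, rfl⟩
        exact ((d5 _ h _ hx).1 ((f2 ⟨e, h⟩ x).2 j)).1.ker k
      · convert d1 using 1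
        exact Set.ext fun x => and_iff_left_of_imp fun hx j => h ⟨x, hx, j⟩
    obtain ⟨n, hn⟩ := key id _ measurable_id hB fun _ h => h
    obtain ⟨S, s1, s2, s3⟩ : ∃ S ⊆ {e ∈ D | ¬ Ker (cl (P e))}, S.Countable ∧
        ∀ e ∈ {e ∈ D | ¬ Ker (cl (P e))}, ∃ e' ∈ S, n e = n e' := by
      obtain ⟨S, a, b, c⟩ := exists_subset_bijOn {e ∈ D | ¬ Ker (cl (P e))} n
      exact ⟨S, a, countable_of_injective_of_countable_image c.1 (to_countable _),
        fun e he => (c.2 ⟨e, he, rfl⟩).imp fun _ k => ⟨k.1, k.2.symm⟩⟩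
    obtain ⟨Q, q1, q2, q3⟩ := diag (s2.image P) (forall_mem_image.2 fun _ h => (s1 h).2)
    obtain ⟨e, e1, e2, e3⟩ := d6 Q q1
    have e4 : e ∈ {e ∈ D | ¬ Ker (cl (P e))} := ⟨e1, fun k => q2 (e2.ker k)⟩
    obtain ⟨e', a, b⟩ := s3 e e4
    exact q3 _ ⟨e', a, rfl⟩ (e3.trans ((d5 _ e1 _ (s1 a).1).1 (hn _ e4 _ (s1 a) b)).1)
  refine ⟨C, c1, c2, c3, nb, fun ⟨r, r1, r2⟩ => ?_, fun ⟨r, r1, r2⟩ => ?_⟩
  · obtain ⟨G, a, b⟩ := nb
    refine b ?_
    convert c2.subtype_image (r1 (meas_graphIso (r ⟨G, a⟩))) using 1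
    refine Set.ext fun H => ⟨fun h => ⟨⟨H, c3 G a H h⟩,
      (r2 _ _).1 (topIso_equivalence.symm h), rfl⟩, ?_⟩
    rintro ⟨H, h, rfl⟩
    exact topIso_equivalence.symm ((r2 H ⟨G, a⟩).2 h)
  · have j : ∀ x y, OR.Es (g (r x)).1 (g (r y)).1 → x = y := fun x y h =>
      (r2 x y).2 ((g2 _ _).2 h)
    have k : {x | Ker (cl (P (g (r x)).1))}.Countable := Set.Subsingleton.countable
      fun x a y b => j x y (top _ (g _).2 _ (g _).2 a b)
    obtain ⟨n, hn⟩ := key (fun x => (g (r x)).1) _ (measurable_subtype_coe.comp (g1.comp r1))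
      k.measurableSet.compl fun x h => ⟨(g _).2, h⟩
    have := k.union (countable_of_injective_of_countable_image (f := n)
      (fun x a y b c => j x y (hn x a y b c)) (to_countable _))
    rw [union_compl_self] at this
    have := countable_univ_iff.1 this
    obtain ⟨F, hF⟩ := exists_surjective_nat (ℕ → Bool)
    obtain ⟨m, hm⟩ := hF fun i => !F i i
    simpa using congrFun hm m

end Pool.Agent.P.MP_52b1ec_lc.TH
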