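import Pool.Agent.P.MP_52b1ec_lc.T.Arr

namespace Pool.Agent.P.MP_52b1ec_lc.TH

open Set Relation

lemma c_sk {P : T → Prop} {y : T} : T.sk P y ↔ ∃ z, ReflTransGen T.Kid z y ∧ P z := by
  constructor
  · induction y with
    | mk A c R ih =>
      rintro (h | ⟨j, h⟩)
      · exact ⟨_, .refl, h⟩
      · obtain ⟨z, h1, h2⟩ := ih j h
        exact ⟨z, h1.tail ⟨j, rfl⟩, h2⟩
  · rintro ⟨z, h1, h2⟩
    induction h1 with
    | refl => cases z; exact Or.inl h2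
    | @tail b y _ k ih =>
      cases y
      obtain ⟨j, rfl⟩ := k
      exact Or.inr ⟨j, ih⟩

theorem T.le_iff {x y : T} : x.le y ↔ ∃ z, Relation.ReflTransGen T.Kid z y ∧ x.st z := by
  cases x
  exact c_sk

theorem T.st.le {x y : T} (h : x.st y) : x.le y := T.le_iff.2 ⟨y, .refl, h⟩

/-- the options of a type, as sets of children -/
def c_op : T → Set (Set T)
  | .mk A c R => {U | ∃ W ∈ R, U = {a | ∃ i : A, i.1 ∈ W ∧ c i = a}}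

lemma c_op_kid {x a : T} {U : Set T} (h : U ∈ c_op x) (ha : a ∈ U) : a.Kid x := by
  cases x
  obtain ⟨W, -, rfl⟩ := h
  obtain ⟨i, -, e⟩ := ha
  exact ⟨i, e⟩

lemma c_st {x y : T} : x.st y ↔ (∀ a : T, a.Kid x → ∃ b : T, b.Kid y ∧ a.le b) ∧
    ∀ U ∈ c_op x, ∃ U' ∈ c_op y, ∀ a ∈ U, ∃ b ∈ U', a.le b := by
  cases x
  cases y
  refine and_congr ⟨?_, fun h i => ?_⟩ ⟨?_, fun h W hW => ?_⟩
  · rintro h a ⟨i, rfl⟩
    obtain ⟨j, hj⟩ := h i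
    exact ⟨_, ⟨j, rfl⟩, hj⟩
  · obtain ⟨b, ⟨j, rfl⟩, hj⟩ := h _ ⟨i, rfl⟩
    exact ⟨j, hj⟩
  · rintro h U ⟨W, hW, rfl⟩
    obtain ⟨W', hW', k⟩ := h W hW
    refine ⟨_, ⟨W', hW', rfl⟩, ?_⟩
    rintro a ⟨i, hi, rfl⟩
    obtain ⟨j, hj, e⟩ := k i hi
    exact ⟨_, ⟨j, hj, rfl⟩, e⟩
  · obtain ⟨U', ⟨W', hW', rfl⟩, k⟩ := h _ ⟨W, hW, rfl⟩
    refine ⟨W', hW', fun i hi => ?_⟩
    obtain ⟨b, ⟨j, hj, rfl⟩, e⟩ := k _ ⟨i, hi, rfl⟩
    exact ⟨j, hj, e⟩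

lemma c_wf : WellFounded T.Kid := by
  refine ⟨fun x => ?_⟩
  induction x with
  | mk A c R ih => exact ⟨_, fun y ⟨j, e⟩ => e ▸ ih j⟩

theorem T.st_refl (x : T) : x.st x := by
  induction x using c_wf.induction with
  | _ x ih => exact c_st.2 ⟨fun a h => ⟨a, h, (ih a h).le⟩,
      fun U h => ⟨U, h, fun a ha => ⟨a, ha, (ih a (c_op_kid h ha)).le⟩⟩⟩

theorem T.le_refl (x : T) : x.le x := x.st_refl.le

theorem T.Kid.le {x y : T} (h : x.Kid y) : x.le y := T.le_iff.2 ⟨x, .single h, x.st_refl⟩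

lemma c_up {x y z : T} (h : x.le y) (k : ReflTransGen T.Kid y z) : x.le z := by
  obtain ⟨w, h1, h2⟩ := T.le_iff.1 h
  exact T.le_iff.2 ⟨w, h1.trans k, h2⟩

lemma c_dn {x y z : T} (k : ReflTransGen T.Kid x y) (h : y.le z) : x.le z := by
  induction k with
  | refl => exact h
  | tail _ k ih =>
    obtain ⟨w, h1, h2⟩ := T.le_iff.1 h
    obtain ⟨b, h3, h4⟩ := (c_st.1 h2).1 _ k
    exact ih (c_up h4 (.head h3 h1))

lemma c_tr {x : T} (H : ∀ y z : T, x.st y → y.st z → x.st z) {y z : T} (h : x.le y)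
    (k : y.le z) : x.le z := by
  obtain ⟨w, h1, h2⟩ := T.le_iff.1 h
  obtain ⟨v, h3, h4⟩ := T.le_iff.1 (c_dn h1 k)
  exact T.le_iff.2 ⟨v, h3, H _ _ h2 h4⟩

theorem T.st.trans {x y z : T} (h : x.st y) (k : y.st z) : x.st z := by
  induction x using c_wf.induction generalizing y z with
  | _ x ih =>
    obtain ⟨h1, h2⟩ := c_st.1 h
    obtain ⟨k1, k2⟩ := c_st.1 k
    refine c_st.2 ⟨fun a ha => ?_, fun U hU => ?_⟩
    · obtain ⟨b, hb, e⟩ := h1 a ha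
      obtain ⟨c, hc, e'⟩ := k1 b hb
      exact ⟨c, hc, c_tr (fun _ _ => ih a ha) e e'⟩
    · obtain ⟨U', hU', e⟩ := h2 U hU
      obtain ⟨U'', hU'', e'⟩ := k2 U' hU'
      refine ⟨U'', hU'', fun a ha => ?_⟩
      obtain ⟨b, hb, f⟩ := e a ha
      obtain ⟨c, hc, f'⟩ := e' b hb
      exact ⟨c, hc, c_tr (fun _ _ => ih a (c_op_kid hU ha)) f f'⟩

theorem T.le.trans {x y z : T} (h : x.le y) (k : y.le z) : x.le z :=
  c_tr (fun _ _ => T.st.trans) h k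

lemma c_shift {X : ℕ → ℕ} {A : Set ℕ} (h : In X A) : In (fun i => X (i + 1)) A :=
  ⟨fun _ _ e => h.1 (Nat.succ_lt_succ e), fun _ => h.2 _⟩

lemma c_arr2 {Q Q' : Type} {f : (ℕ → ℕ) → Q} {A : Set ℕ} (h : Arr f A) (F : Q → Q → Q') :
    Arr (fun X => F (f X) (f fun i => X (i + 1))) A := by
  refine ⟨h.1, fun X hX => ?_⟩
  obtain ⟨n, hn⟩ := h.2 X hX
  obtain ⟨m, hm⟩ := h.2 _ (c_shift hX)
  refine ⟨n + m + 1, fun Y hY e => ?_⟩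
  simp only
  rw [hn Y hY fun i hi => e i (by omega), hm _ (c_shift hY) fun i hi => e (i + 1) (by omega)]

lemma c_mono {Q : Type} {f : (ℕ → ℕ) → Q} {A B : Set ℕ} (h : Arr f A) (s : B ⊆ A)
    (i : B.Infinite) : Arr f B :=
  ⟨i, fun X hX => (h.2 X ⟨hX.1, fun j => s (hX.2 j)⟩).imp fun _ k Y hY =>
    k Y ⟨hY.1, fun j => s (hY.2 j)⟩⟩

theorem T.wqo (f : ℕ → T) : ∃ i j, i < j ∧ (f i).le (f j) := by
  by_contra hn
  refine no_bad (r := T.le) (lt := TransGen T.Kid) c_wf.transGen (fun _ _ _ => TransGen.trans)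
    (fun _ _ _ h k => c_up h k.to_reflTransGen) (fun g A hb => ?_) (fun X => f (X 0)) univ
    ⟨⟨infinite_univ, fun X _ => ⟨1, fun Y _ e => congrArg f (e 0 one_pos)⟩⟩,
      fun X hX e => hn ⟨_, _, hX.1 one_pos, e⟩⟩
  obtain ⟨B, hB, iB, hP⟩ := ramsey (c_arr2 hb.1
    fun x y => ∀ a : T, a.Kid x → ∃ b : T, b.Kid y ∧ a.le b)
  have aB := c_mono hb.1 hB iB
  rcases hP with hP | hP
  · have e1 : ∀ x y : T, ∃ U : Set T, (¬ x.le y → (∀ a : T, a.Kid x → ∃ b : T, b.Kid y ∧ a.le b) →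
        U ∈ c_op x ∧ ∀ U' ∈ c_op y, ∃ a ∈ U, ∀ b ∈ U', ¬ a.le b) := by
      intro x y
      by_contra k
      push Not at k
      obtain ⟨k1, k2, -⟩ := k ∅
      exact k1 (c_st.2 ⟨k2, fun U hU => (k U).2.2 hU⟩).le
    choose w hw using e1
    have e2 : ∀ U U' : Set T, ∃ a : T, (∃ a ∈ U, ∀ b ∈ U', ¬ a.le b) →
        a ∈ U ∧ ∀ b ∈ U', ¬ a.le b := by
      intro U U'
      by_cases k : ∃ a ∈ U, ∀ b ∈ U', ¬ a.le b
      · exact k.imp fun _ e _ => e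
      · exact ⟨f 0, fun e => absurd e k⟩
    choose E hE using e2
    have k1 := fun X (hX : In X B) => hw _ _ (hb.2 X ⟨hX.1, fun j => hB (hX.2 j)⟩) (hP X hX)
    have k2 := fun X (hX : In X B) => hE _ _ ((k1 X hX).2 _ (k1 _ (c_shift hX)).1)
    exact ⟨_, B, hB, ⟨c_arr2 (c_arr2 aB w) E, fun X hX =>
      (k2 X hX).2 _ (k2 _ (c_shift hX)).1⟩,
      fun X hX => .single (c_op_kid (k1 X hX).1 (k2 X hX).1)⟩
  · have e1 : ∀ x y : T, ∃ a : T, (¬ ∀ a : T, a.Kid x → ∃ b : T, b.Kid y ∧ a.le b) →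
        a.Kid x ∧ ∀ b : T, b.Kid y → ¬ a.le b := by
      intro x y
      by_cases k : ∀ a : T, a.Kid x → ∃ b : T, b.Kid y ∧ a.le b
      · exact ⟨x, fun e => absurd k e⟩
      · push Not at k
        exact k.imp fun _ e _ => e
    choose G hG using e1
    have k1 := fun X (hX : In X B) => hG _ _ (hP X hX)
    exact ⟨_, B, hB, ⟨c_arr2 aB G, fun X hX => (k1 X hX).2 _ (k1 _ (c_shift hX)).1⟩,
      fun X hX => .single (k1 X hX).1⟩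

lemma c_wqo2 (τ : Finset ℕ → T) (f : ℕ → Set (Finset ℕ)) :
    ∃ i j, i < j ∧ ∀ a ∈ f i, ∃ b ∈ f j, (τ a).le (τ b) := by
  obtain ⟨i, j, h, k⟩ := T.wqo fun n => .mk (f n) (fun a => τ a.1) ∅
  refine ⟨i, j, h, fun a ha => ?_⟩
  obtain ⟨z, h1, h2⟩ := T.le_iff.1 k
  obtain ⟨b, h3, h4⟩ := (c_st.1 h2).1 (τ a) ⟨⟨a, ha⟩, rfl⟩
  rcases h1.cases_tail with e | ⟨y, h5, d, rfl⟩
  · subst e
    obtain ⟨d, rfl⟩ := h3
    exact ⟨d.1, d.2, h4⟩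
  · exact ⟨d.1, d.2, c_up h4 (.head h3 h5)⟩

lemma c_stab {Q : Type} {r : Q → Q → Prop} (w : ∀ f : ℕ → Q, ∃ i j, i < j ∧ r (f i) (f j))
    {F : ℕ → Set Q} (h : Antitone F) : ∃ k, ∀ m, ∀ x ∈ F k, ∃ y ∈ F m, r x y := by
  by_contra hn
  push Not at hn
  choose m x hx k using hn
  obtain ⟨g, -, hg⟩ := exists_seq_of_forall_finset_exists (fun _ : ℕ => True)
    (fun a b => m a ≤ b) fun s _ => ⟨s.sup m, trivial, fun _ => Finset.le_sup⟩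
  obtain ⟨i, j, e, e'⟩ := w fun n => x (g n)
  exact k _ _ (h (hg i j e) (hx _)) e'

theorem stab1 {F : ℕ → Set T} (h : Antitone F) : ∃ k, ∀ m, ∀ x ∈ F k, ∃ y ∈ F m, x.le y :=
  c_stab T.wqo h

theorem stab2 (τ : Finset ℕ → T) {G : ℕ → Set (Set (Finset ℕ))} (h : Antitone G) :
    ∃ k, ∀ m, ∀ W ∈ G k, ∃ W' ∈ G m, ∀ a ∈ W, ∃ b ∈ W', (τ a).le (τ b) :=
  c_stab (c_wqo2 τ) h

lemma c_low {Q : Type} {r : Q → Q → Prop} (w : ∀ f : ℕ → Q, ∃ i j, i < j ∧ r (f i) (f j))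
    {Z : Set Q} (hZ : Z.Countable) :
    {L | L ⊆ Z ∧ ∀ a ∈ Z, ∀ b ∈ L, r a b → a ∈ L}.Countable := by
  refine ((countable_ofPred_finite_subset hZ).image fun F => {q ∈ Z | ∀ a ∈ F, ¬ r a q}).mono ?_
  rintro L ⟨h1, h2⟩
  have : ∃ s : Finset Q, (∀ a ∈ s, a ∈ Z ∧ a ∉ L) ∧ ∀ q, q ∈ Z ∧ q ∉ L → ∃ a ∈ s, r a q := by
    by_contra k
    push Not at k
    obtain ⟨g, -, hg⟩ := exists_seq_of_forall_finset_exists _ _ k
    obtain ⟨i, j, e, e'⟩ := w g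
    exact hg i j e e'
  obtain ⟨s, h3, h4⟩ := this
  refine ⟨s, ⟨s.finite_toSet, fun a ha => (h3 a ha).1⟩, Set.ext fun q => ⟨fun k => ?_, fun k => ?_⟩⟩
  · by_contra e
    obtain ⟨a, ha, e'⟩ := h4 q ⟨k.1, e⟩
    exact k.2 a ha e'
  · exact ⟨h1 k, fun a ha e => (h3 a ha).2 (h2 a (h3 a ha).1 q k e)⟩

theorem Small.mono {S S' : Set T} (h : Small S) (k : S' ⊆ S) : Small S' :=
  h.imp fun _ e => ⟨e.1, fun x hx => e.2 x (k hx)⟩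

theorem Small.iUnion {I : Type} [Countable I] {S : I → Set T} (h : ∀ i, Small (S i)) :
    Small (⋃ i, S i) := by
  choose C h1 h2 using h
  refine ⟨⋃ i, C i, countable_iUnion h1, fun x hx => ?_⟩
  obtain ⟨i, hi⟩ := mem_iUnion.1 hx
  obtain ⟨y, hy, e⟩ := h2 i x hi
  exact ⟨y, mem_iUnion.2 ⟨i, hy⟩, e⟩

theorem Small.union {S S' : Set T} (h : Small S) (k : Small S') : Small (S ∪ S') := by
  obtain ⟨C, h1, h2⟩ := h
  obtain ⟨C', k1, k2⟩ := k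
  refine ⟨C ∪ C', h1.union k1, fun x hx => hx.elim (fun e => ?_) fun e => ?_⟩
  · exact (h2 x e).imp fun _ f => ⟨Or.inl f.1, f.2⟩
  · exact (k2 x e).imp fun _ f => ⟨Or.inr f.1, f.2⟩

theorem Small.plus {S : Set T} (h : Small S) : ∃ C : Set T, C.Countable ∧
    ∀ x : T, (∀ y : T, y.Kid x → y ∈ S) → ∃ y ∈ C, x.st y ∧ y.st x := by
  obtain ⟨C, h1, h2⟩ := h
  have : Nonempty T := ⟨.mk ∅ (fun i => i.2.elim) ∅⟩
  obtain ⟨e, he⟩ := Set.countable_iff_exists_subset_range.1 h1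
  let τ : Finset ℕ → T := fun s => e s.card
  have h3 : ∀ x ∈ S, ∃ s, x.le (τ s) ∧ (τ s).le x := fun x hx => by
    obtain ⟨y, hy, k⟩ := h2 x hx
    obtain ⟨n, rfl⟩ := he hy
    exact ⟨Finset.range n, by simpa [τ] using k⟩
  let D : Set T → Set (Finset ℕ) := fun U => {s | ∃ a ∈ U, (τ s).le a}
  have z1 := c_low (r := fun s t => (τ s).le (τ t)) (fun f => T.wqo fun n => τ (f n))
    countable_univ
  have z2 := c_low (r := fun W W' => ∀ a ∈ W, ∃ b ∈ W', (τ a).le (τ b)) (c_wqo2 τ) z1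
  set Z := {L : Set (Finset ℕ) | L ⊆ univ ∧ ∀ a ∈ univ, ∀ b ∈ L, (τ a).le (τ b) → a ∈ L}
  have hD : ∀ U, D U ∈ Z := fun U =>
    ⟨subset_univ _, fun a _ b ⟨c, hc, k⟩ k' => ⟨c, hc, k'.trans k⟩⟩
  let φ : T → Set (Finset ℕ) × Set (Set (Finset ℕ)) := fun x =>
    (D {a | a.Kid x}, {W ∈ Z | ∃ U ∈ c_op x, W ⊆ D U})
  have key : ∀ x y : T, (∀ a : T, a.Kid x → a ∈ S) → φ x = φ y → x.st y := by
    intro x y hx k
    have k1 : D {a | a.Kid x} = D {a | a.Kid y} := congrArg Prod.fst k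
    have k2 : {W ∈ Z | ∃ U ∈ c_op x, W ⊆ D U} = {W ∈ Z | ∃ U ∈ c_op y, W ⊆ D U} :=
      congrArg Prod.snd k
    refine c_st.2 ⟨fun a ha => ?_, fun U hU => ?_⟩
    · obtain ⟨s, s1, s2⟩ := h3 a (hx a ha)
      obtain ⟨b, hb, s3⟩ : s ∈ D {a | a.Kid y} := k1 ▸ ⟨a, ha, s2⟩
      exact ⟨b, hb, s1.trans s3⟩
    · obtain ⟨-, U', hU', k3⟩ : D U ∈ {W ∈ Z | ∃ U ∈ c_op y, W ⊆ D U} :=
        k2 ▸ ⟨hD U, U, hU, Subset.rfl⟩
      refine ⟨U', hU', fun a ha => ?_⟩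
      obtain ⟨s, s1, s2⟩ := h3 a (hx a (c_op_kid hU ha))
      obtain ⟨b, hb, s3⟩ := k3 ⟨a, ha, s2⟩
      exact ⟨b, hb, s1.trans s3⟩
  refine ⟨_, (z1.prod z2).image (Function.invFunOn φ {x | ∀ y : T, y.Kid x → y ∈ S}),
    fun x hx => ?_⟩
  have k : ∃ a ∈ {x : T | ∀ y : T, y.Kid x → y ∈ S}, φ a = φ x := ⟨x, hx, rfl⟩
  refine ⟨_, ⟨φ x, ⟨hD _, fun _ e => e.1, ?_⟩, rfl⟩, key _ _ hx (Function.invFunOn_eq k).symm,
    key _ _ (Function.invFunOn_mem k) (Function.invFunOn_eq k)⟩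
  rintro W hW W' ⟨-, U, hU, k1⟩ k2
  refine ⟨hW, U, hU, fun a ha => ?_⟩
  obtain ⟨b, hb, k3⟩ := k2 a ha
  exact (hD U).2 a trivial b (k1 hb) k3

lemma c_down (y : T) : Small {x : T | x.le y} := by
  induction y with
  | mk A c R ih =>
    have h1 := Small.iUnion ih
    obtain ⟨C, h2, h3⟩ := h1.plus
    refine (h1.union (S' := {x : T | x.st (.mk A c R)}) ⟨C, h2, fun x hx => ?_⟩).mono fun x hx => ?_
    · refine (h3 x fun a ha => ?_).imp fun _ e => ⟨e.1, e.2.1.le, e.2.2.le⟩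
      obtain ⟨b, ⟨j, rfl⟩, e⟩ := (c_st.1 hx).1 a ha
      exact mem_iUnion.2 ⟨j, e⟩
    · obtain ⟨z, k1, k2⟩ := T.le_iff.1 hx
      rcases k1.cases_tail with e | ⟨y, k3, j, rfl⟩
      · exact Or.inr (e ▸ k2)
      · exact Or.inl (mem_iUnion.2 ⟨j, T.le_iff.2 ⟨z, k3, k2⟩⟩)

theorem Small.down {S : Set T} (h : Small S) : Small {x | ∃ y ∈ S, x.le y} := by
  obtain ⟨C, h1, h2⟩ := h
  have := h1.to_subtype
  refine (Small.iUnion fun c : C => c_down c.1).mono ?_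
  rintro x ⟨y, hy, e⟩
  obtain ⟨c, hc, k, -⟩ := h2 y hy
  exact mem_iUnion.2 ⟨⟨c, hc⟩, e.trans k⟩

end Pool.Agent.P.MP_52b1ec_lc.TH
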