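import Pool.Agent.P.MP_52b1ec_lc.T.Defs

namespace Pool.Agent.P.MP_52b1ec_lc.TH

open Set Ordinal

/-- the node `s` has rank at most `b` -/
def Rk (K : Set (Finset ℕ)) (b : Ordinal.{0}) (s : Finset ℕ) : Prop :=
  ∃ k, ∀ l t, k ≤ l → Ext s l t → t ∈ K → ∃ c, ∃ _ : c < b, Rk K c t
termination_by b

theorem r_iff {K : Set (Finset ℕ)} {b : Ordinal.{0}} {s : Finset ℕ} :
    Rk K b s ↔ ∃ k, ∀ l t, k ≤ l → Ext s l t → t ∈ K → ∃ c < b, Rk K c t := by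
  rw [Rk]
  simp only [exists_prop]

theorem r_mono {K : Set (Finset ℕ)} {b b' : Ordinal.{0}} {s : Finset ℕ} (h : Rk K b s)
    (e : b ≤ b') : Rk K b' s := by
  obtain ⟨k, hk⟩ := r_iff.1 h
  exact r_iff.2 ⟨k, fun l t a1 a2 a3 => (hk l t a1 a2 a3).imp fun _ c => ⟨c.1.trans_le e, c.2⟩⟩

theorem r_bnd {ι : Type} [Countable ι] {p : ι → Ordinal.{0} → Prop} (h : ∀ i, ∃ b < ω₁, p i b) :
    ∃ b < ω₁, ∀ i, ∃ c < b, p i c := by
  choose f h1 h2 using h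
  exact ⟨_, (Cardinal.isSuccLimit_omega 1).succ_lt (iSup_lt_omega_one h1), fun i =>
    ⟨f i, Order.lt_succ_of_le (Ordinal.le_iSup f i), h2 i⟩⟩

theorem r_all {K : Set (Finset ℕ)} (h : ¬ Ker K) : ∃ b < ω₁, ∀ s ∈ K, Rk K b s := by
  have h1 : ∀ s, ∃ b < ω₁, s ∈ K → Rk K b s := by
    by_contra hc
    obtain ⟨s₀, h0⟩ := not_forall.1 hc
    refine h ⟨{s | ¬ ∃ b < ω₁, s ∈ K → Rk K b s}, fun s hs => ?_, ⟨s₀, h0⟩, fun s hs k => ?_⟩
    · exact by_contra fun e => hs ⟨0, omega_pos 1, fun a => (e a).elim⟩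
    · by_contra hn
      obtain ⟨b, b1, b2⟩ := r_bnd (p := fun (t : Finset ℕ) c =>
          (∃ l, k ≤ l ∧ Ext s l t) → t ∈ K → Rk K c t) fun t => by
        by_cases e : ∃ l, k ≤ l ∧ Ext s l t
        · obtain ⟨l, e1, e2⟩ := e
          obtain ⟨c, c1, c2⟩ := not_not.1 fun a => hn ⟨l, t, e1, e2, a⟩
          exact ⟨c, c1, fun _ => c2⟩
        · exact ⟨0, omega_pos 1, fun a => (e a).elim⟩
      exact hs ⟨b, b1, fun _ => r_iff.2 ⟨k, fun l t a1 a2 a3 =>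
        (b2 t).imp fun _ c => ⟨c.1, c.2 ⟨l, a1, a2⟩ a3⟩⟩⟩
  obtain ⟨b, b1, b2⟩ := r_bnd h1
  exact ⟨b, b1, fun s hs => let ⟨_, c1, c2⟩ := b2 s; r_mono (c2 hs) c1.le⟩

theorem r_ker {K N : Set (Finset ℕ)} (h : N ⊆ K)
    (k : ∀ s ∈ N, ∀ k, ∃ l t, k ≤ l ∧ Ext s l t ∧ t ∈ N) (b : Ordinal.{0}) :
    ∀ s ∈ N, ¬ Rk K b s := by
  induction b using WellFoundedLT.induction with
  | ind b ih =>
    intro s hs hr
    obtain ⟨m, hm⟩ := r_iff.1 hr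
    obtain ⟨l, t, a1, a2, a3⟩ := k s hs m
    obtain ⟨c, c1, c2⟩ := hm l t a1 a2 (h a3)
    exact ih c c1 t a3 c2

theorem exists_cut {K : Set (Finset ℕ)} (h : ¬ Ker K) : ∃ κ : Finset ℕ → ℕ,
    WellFounded fun t s => s ∈ K ∧ t ∈ K ∧ ∃ l, κ s ≤ l ∧ Ext s l t := by
  obtain ⟨b, -, hb⟩ := r_all h
  have h1 : ∀ s, ∃ k, s ∈ K → ∀ l t, k ≤ l → Ext s l t → t ∈ K →
      sInf {c | Rk K c t} < sInf {c | Rk K c s} := fun s => by
    by_cases hs : s ∈ K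
    · obtain ⟨k, hk⟩ := r_iff.1 (csInf_mem (s := {c | Rk K c s}) ⟨b, hb s hs⟩)
      exact ⟨k, fun _ l t a1 a2 a3 =>
        let ⟨_, c1, c2⟩ := hk l t a1 a2 a3; (csInf_le' (s := {c | Rk K c t}) c2).trans_lt c1⟩
    · exact ⟨0, fun a => (hs a).elim⟩
  choose κ hκ using h1
  exact ⟨κ, Subrelation.wf (fun ⟨a1, a2, l, a3, a4⟩ => hκ _ a1 l _ a3 a4 a2)
    (InvImage.wf (fun s => sInf {c | Rk K c s}) wellFounded_lt)⟩

theorem Prp.cls {P : ℕ → Finset ℕ} (h : Prp P) : Cls (cl P) := by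
  refine ⟨fun s hs => ?_, fun s hs k => ?_⟩
  · obtain ⟨i, e⟩ := hs 1
    exact (Finset.mem_filter.1 (e ▸ Finset.mem_filter.2 ⟨h.1 i, Nat.one_pos⟩)).1
  · obtain ⟨t, ht, e⟩ := hs k
    obtain ⟨i, e'⟩ := ht k
    exact ⟨i, e'.trans e⟩

theorem r_mem {s t : Finset ℕ} {k x : ℕ} (e : s.filter (· < k) = t.filter (· < k)) (hx : x < k) :
    x ∈ s ↔ x ∈ t := by
  simpa [hx] using Finset.ext_iff.1 e x

section
variable {P Q : ℕ → Finset ℕ} {γ : ℕ → ℕ}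

theorem r_gap (hγ : Monotone γ) {s t c : Finset ℕ} {k m M : ℕ} (n : Nr γ t c)
    (e : ∀ x < k, x ∈ t ↔ x ∈ s) (hM : ∀ x ∈ s, x ≤ M) (h1 : M < k) (h2 : γ m < k)
    (h3 : γ M ≤ m) : (∀ y ∈ c, y ≤ m → y ≤ γ M) ∧ Nr γ s (c.filter (· ≤ γ M)) := by
  have a : ∀ y ∈ c, y ≤ m → ∃ x ∈ s, x ≤ γ y ∧ y ≤ γ x := fun y hy hm =>
    let ⟨x, x1, x2, x3⟩ := n.2 y hy
    ⟨x, (e x (x2.trans_lt ((hγ hm).trans_lt h2))).1 x1, x2, x3⟩
  refine ⟨fun y hy hm => ?_, fun x hx => ?_, fun y hy => ?_⟩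
  · obtain ⟨x, x1, -, x3⟩ := a y hy hm
    exact x3.trans (hγ (hM x x1))
  · obtain ⟨y, y1, y2, y3⟩ := n.1 x ((e x ((hM x hx).trans_lt h1)).2 hx)
    exact ⟨y, Finset.mem_filter.2 ⟨y1, y3.trans (hγ (hM x hx))⟩, y2, y3⟩
  · exact a y (Finset.mem_filter.1 hy).1 ((Finset.mem_filter.1 hy).2.trans h3)

theorem r_sub (c : Finset ℕ) (n : ℕ) : c.filter (· ≤ n) ∈ Iic (Finset.range (n + 1)) :=
  fun _ hy => Finset.mem_range.2 (Nat.lt_succ_of_le (Finset.mem_filter.1 hy).2)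

theorem r_cand (hγ : Monotone γ) (H : ∀ i, ∃ j, Nr γ (P i) (Q j)) {s : Finset ℕ}
    (hs : s ∈ cl P) : ∃ c ∈ cl Q, Nr γ s c := by
  choose i hi using hs
  choose j hj using H
  have hM : ∀ x ∈ s, x ≤ s.sup id := fun x hx => Finset.le_sup (f := id) hx
  generalize s.sup id = M at hM
  obtain ⟨c, -, hc⟩ := (Filter.frequently_exists_finite (finite_Iic (Finset.range (γ M + 1)))
    (l := Filter.atTop) (p := fun c k => (Q (j (i k))).filter (· ≤ γ M) = c)).1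
      (.of_forall fun k => ⟨_, r_sub _ _, rfl⟩)
  have h1 : ∀ m, ∃ k, (Q (j (i k))).filter (· ≤ γ M) = c ∧
      (∀ y ∈ Q (j (i k)), y ≤ max m (γ M) → y ≤ γ M) ∧ Nr γ s c := fun m => by
    obtain ⟨k, k1, k2⟩ := Filter.frequently_atTop.1 hc (max M (γ (max m (γ M))) + 1)
    exact ⟨k, k2, k2 ▸ r_gap hγ (hj (i k)) (fun x => r_mem (hi k)) hM (by omega) (by omega)
      (le_max_right _ _)⟩
  refine ⟨c, fun m => ?_, (h1 0).choose_spec.2.2⟩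
  obtain ⟨k, rfl, k2, -⟩ := h1 m
  refine ⟨j (i k), Finset.ext fun y => ?_⟩
  simp only [Finset.mem_filter]
  exact ⟨fun a => ⟨⟨a.1, k2 y a.1 (by omega)⟩, a.2⟩, fun a => ⟨a.1.1, a.2⟩⟩

theorem r_tr (hγ : Monotone γ) (H : ∀ i, ∃ j, Nr γ (P i) (Q j)) (b : Ordinal.{0}) :
    ∀ s, (∀ c ∈ cl Q, Nr γ s c → Rk (cl Q) b c) → Rk (cl P) b s := by
  induction b using WellFoundedLT.induction with
  | ind b ih =>
  intro s hs
  have h1 : ∀ p, ∃ k, ∀ l c, k ≤ l → Ext p l c → c ∈ cl Q → Nr γ s p →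
      ∃ d < b, Rk (cl Q) d c := fun p => by
    by_cases e : p ∈ cl Q
    · by_cases e' : Nr γ s p
      · exact (r_iff.1 (hs p e e')).imp fun k hk l c a1 a2 a3 _ => hk l c a1 a2 a3
      · exact ⟨0, fun _ _ _ _ _ a => (e' a).elim⟩
    · obtain ⟨k, hk⟩ := not_forall.1 e
      refine ⟨k, fun l c a1 a2 a3 _ => (hk ?_).elim⟩
      obtain ⟨i, hi⟩ := a3 k
      refine ⟨i, hi.trans (Finset.ext fun y => ?_)⟩
      simp only [a2.2, Finset.mem_filter]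
      exact ⟨fun a => ⟨⟨a.1, by omega⟩, a.2⟩, fun a => ⟨a.1.1, a.2⟩⟩
  choose κ hκ using h1
  have hM : ∀ x ∈ s, x ≤ s.sup id := fun x hx => Finset.le_sup (f := id) hx
  generalize s.sup id = M at hM
  obtain ⟨m₀, hm⟩ := ((finite_Iic (Finset.range (γ M + 1))).image κ).bddAbove
  obtain ⟨m, m1, m2⟩ : ∃ m, m₀ ≤ m ∧ γ M ≤ m := ⟨_, le_max_left _ _, le_max_right _ _⟩
  refine r_iff.2 ⟨max M (γ m) + 1, fun l t a1 a2 a3 => ?_⟩
  have h2 : ∀ c ∈ cl Q, Nr γ t c → ∃ d < b, Rk (cl Q) d c := fun c hc n => by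
    obtain ⟨g1, g2⟩ := r_gap hγ (k := l) n (fun x hx => by simp [a2.2, hx]) hM (by omega)
      (m := m) (by omega) m2
    have h3 : ∃ y, y ∈ c ∧ m < y := by
      obtain ⟨y, y1, y2, -⟩ := n.1 l a2.1
      exact ⟨y, y1, by_contra fun e => by have := hγ (not_lt.1 e); omega⟩
    classical
    refine hκ _ (Nat.find h3) c (((hm ⟨_, r_sub c _, rfl⟩).trans m1).trans (Nat.find_spec h3).2.le)
      ⟨(Nat.find_spec h3).1, Finset.filter_congr fun y hy => ⟨fun a => ?_, fun a => ?_⟩⟩ hc g2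
    · exact (a.trans m2).trans_lt (Nat.find_spec h3).2
    · exact g1 y hy (not_lt.1 fun e => Nat.find_min h3 a ⟨hy, e⟩)
  choose! d d1 d2 using h2
  have h4 : {c | c ∈ cl Q ∧ Nr γ t c}.Finite :=
    (finite_Iic (Finset.range (γ (t.sup id) + 1))).subset fun c hc y hy => by
      obtain ⟨x, x1, -, x3⟩ := hc.2.2 y hy
      exact Finset.mem_range.2 (Nat.lt_succ_of_le (x3.trans (hγ (Finset.le_sup (f := id) x1))))
  obtain ⟨c, c1, c2⟩ := exists_max_image _ d h4 (r_cand hγ H a3)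
  exact ⟨d c, d1 c c1.1 c1.2, ih _ (d1 c c1.1 c1.2) t fun c' e1 e2 =>
    r_mono (d2 c' e1 e2) (c2 c' ⟨e1, e2⟩)⟩

end

theorem r_sim {P Q : ℕ → Finset ℕ} (h : Sim P Q) {b : Ordinal.{0}}
    (k : ∀ c ∈ cl Q, Rk (cl Q) b c) (s : Finset ℕ) : Rk (cl P) b s :=
  let ⟨_, h1, φ, _, h2⟩ := h
  r_tr h1 (fun i => ⟨φ i, h2 i⟩) b s fun c a _ => k c a

theorem Sim.ker {P Q : ℕ → Finset ℕ} (h : Sim P Q) (k : Ker (cl P)) : Ker (cl Q) := by
  by_contra hn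
  obtain ⟨b, -, hb⟩ := r_all hn
  obtain ⟨N, n1, ⟨s, hs⟩, n2⟩ := k
  exact r_ker n1 n2 b s hs (r_sim h hb s)

/-- the sets along which `π` decreases -/
def r_dec (π : ℕ → Ordinal.{0}) : Set (Finset ℕ) :=
  {s | 0 ∈ s ∧ ∀ x ∈ s, ∀ y ∈ s, 0 < x → x < y → π y < π x}

theorem r_up (π : ℕ → Ordinal.{0}) (d : Ordinal.{0}) :
    ∀ s, ∀ x ∈ s, 0 < x → π x ≤ d → Rk (r_dec π) d s := by
  induction d using WellFoundedLT.induction with
  | ind d ih =>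
  intro s x hx h0 hd
  refine r_iff.2 ⟨0, fun l t _ a2 a3 => ?_⟩
  rw [a2.2, Finset.mem_filter] at hx
  have := (a3.2 x hx.1 l a2.1 h0 hx.2).trans_le hd
  exact ⟨_, this, ih _ this t l a2.1 (h0.trans hx.2) le_rfl⟩

theorem r_low {π : ℕ → Ordinal.{0}} {b : Ordinal.{0}} (h : ∀ d ≤ b, ∀ k, ∃ l, k ≤ l ∧ π l = d)
    (d : Ordinal.{0}) : ∀ s ∈ r_dec π, Rk (r_dec π) d s → d ≤ b →
      ∃ x ∈ s, 0 < x ∧ π x ≤ d := by
  induction d using WellFoundedLT.induction with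
  | ind d ih =>
  intro s hs hr hd
  by_contra! hn
  obtain ⟨k, hk⟩ := r_iff.1 hr
  have hM : ∀ x ∈ s, x ≤ s.sup id := fun x hx => Finset.le_sup (f := id) hx
  obtain ⟨l, l1, l2⟩ := h d hd (max k (s.sup id + 1))
  have hl : ∀ x ∈ s, x < l := fun x hx => by have := hM x hx; omega
  have ht : insert l s ∈ r_dec π := by
    refine ⟨Finset.mem_insert_of_mem hs.1, fun x hx y hy h0 h1 => ?_⟩
    rcases Finset.mem_insert.1 hy with rfl | hy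
    · exact l2 ▸ hn x ((Finset.mem_insert.1 hx).resolve_left h1.ne) h0
    · exact hs.2 x ((Finset.mem_insert.1 hx).resolve_left (h1.trans (hl y hy)).ne) y hy h0 h1
  obtain ⟨c, c1, c2⟩ := hk l _ (by omega) ⟨Finset.mem_insert_self _ _, Finset.ext fun y => by
    simp only [Finset.mem_filter, Finset.mem_insert]
    exact ⟨fun a => ⟨Or.inr a, hl y a⟩, fun a => a.1.resolve_left a.2.ne⟩⟩ ht
  obtain ⟨x, x1, x2, x3⟩ := ih c c1 _ ht c2 (c1.le.trans hd)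
  rcases Finset.mem_insert.1 x1 with rfl | x1
  · exact (x3.trans_lt c1).ne l2
  · exact (hn x x1 x2).not_gt (x3.trans_lt c1)

theorem diag {S : Set (ℕ → Finset ℕ)} (hS : S.Countable) (h : ∀ Q ∈ S, ¬ Ker (cl Q)) :
    ∃ P, Prp P ∧ ¬ Ker (cl P) ∧ ∀ Q ∈ S, ¬ Sim P Q := by
  have := hS.to_subtype
  obtain ⟨b, b1, b2⟩ := r_bnd fun Q : S => r_all (h Q Q.2)
  have h1 : (Iio (Order.succ b)).Countable := by
    rw [← Cardinal.le_aleph0_iff_set_countable, Cardinal.mk_Iio_ordinal, Cardinal.lift_le_aleph0,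
      ← Cardinal.lt_aleph_one_iff]
    exact Cardinal.lt_omega_iff_card_lt.1 ((Cardinal.isSuccLimit_omega 1).succ_lt b1)
  obtain ⟨g, hg⟩ := h1.exists_eq_range ⟨b, Order.lt_succ b⟩
  let π : ℕ → Ordinal.{0} := fun n => g n.unpair.1
  have h2 : ∀ d ≤ b, ∀ k, ∃ l, k ≤ l ∧ π l = d := fun d hd k => by
    obtain ⟨a, rfl⟩ : d ∈ range g := hg ▸ Order.lt_succ_of_le hd
    exact ⟨a.pair k, Nat.right_le_pair _ _, by simp [π]⟩
  have h3 : Infinite (r_dec π) := (infinite_of_injective_forall_mem (s := r_dec π)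
      (f := fun n : ℕ => ({0, n + 1} : Finset ℕ)) (fun m n e => by
        simpa using Finset.ext_iff.1 e (m + 1)) fun n => ⟨by simp, fun x hx y hy _ _ => by
          simp only [Finset.mem_insert, Finset.mem_singleton] at hx hy
          omega⟩).to_subtype
  obtain ⟨e⟩ : Nonempty (ℕ ≃ r_dec π) := inferInstance
  have h4 : cl (fun i => (e i).1) = r_dec π := by
    refine Subset.antisymm (fun s hs => ?_) fun s hs k => ⟨e.symm ⟨s, hs⟩, by simp⟩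
    obtain ⟨i, hi⟩ := hs (s.sup id + 1)
    have a : ∀ x ∈ s, x ∈ (e i).1 := fun x hx =>
      (r_mem hi (Nat.lt_succ_of_le (Finset.le_sup (f := id) hx))).2 hx
    exact ⟨(r_mem hi (Nat.succ_pos _)).1 (e i).2.1, fun x hx y hy => (e i).2.2 x (a x hx) y (a y hy)⟩
  refine ⟨fun i => (e i).1, ⟨fun i => (e i).2.1, fun R => ?_⟩, ?_, fun Q hQ hs => ?_⟩
  · exact ((finite_Iic (Finset.range (R + 1))).preimage
      (Subtype.val_injective.comp e.injective).injOn).subset fun i hi x hx =>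
        Finset.mem_range.2 (Nat.lt_succ_of_le (hi x hx))
  · rw [h4]
    rintro ⟨N, n1, ⟨s, hs⟩, n2⟩
    obtain ⟨l, t, a1, a2, a3⟩ := n2 s hs 1
    exact r_ker n1 n2 _ t a3 (r_up π _ t l a2.1 a1 le_rfl)
  · obtain ⟨c, c1, c2⟩ := b2 ⟨Q, hQ⟩
    obtain ⟨x, x1, x2, -⟩ := r_low h2 c {0} ⟨by simp, by simp⟩ (h4 ▸ r_sim hs c2 _) c1.le
    exact x2.ne' (Finset.mem_singleton.1 x1)

end Pool.Agent.P.MP_52b1ec_lc.TH
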