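import Pool.Agent.P.MP_52b1ec_lc.T.Rank
import Pool.Agent.P.MP_52b1ec_lc.T.Ord
import Pool.Agent.P.MP_52b1ec_lc.Y.OrbA

namespace Pool.Agent.P.MP_52b1ec_lc.TH

open Set

/-- initial segments -/
def Ini (s t : Finset ℕ) : Prop := s ⊆ t ∧ ∀ y ∈ t, y ∈ s ∨ ∀ x ∈ s, x ≤ y

/-- no long gap after `l` -/
def Run (g : ℕ → ℕ) (l : ℕ) (t : Finset ℕ) : Prop :=
  ∀ x, l ≤ x → (∃ y ∈ t, x ≤ y) → ∃ y ∈ t, x ≤ y ∧ y ≤ g x

lemma Ini.rf (s : Finset ℕ) : Ini s s := ⟨subset_rfl, fun _ h => Or.inl h⟩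

lemma Ini.tr {s t u : Finset ℕ} (h : Ini s t) (k : Ini t u) : Ini s u :=
  ⟨h.1.trans k.1, fun y hy => (k.2 y hy).elim (h.2 y) fun a => Or.inr fun x hx => a x (h.1 hx)⟩

lemma Ext.mem {s t : Finset ℕ} {l x : ℕ} (h : Ext s l t) : x ∈ s ↔ x ∈ t ∧ x < l := by
  rw [h.2, Finset.mem_filter]

lemma Ext.ini {s t : Finset ℕ} {l : ℕ} (h : Ext s l t) : Ini s t :=
  ⟨fun _ hx => (h.mem.1 hx).1, fun y hy => (lt_or_ge y l).imp (fun k => h.mem.2 ⟨hy, k⟩)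
    fun k _ hx => (h.mem.1 hx).2.le.trans k⟩

lemma Ext.card {s t : Finset ℕ} {l : ℕ} (h : Ext s l t) : s.card < t.card :=
  Finset.card_lt_card ⟨h.ini.1, fun k => (h.mem.1 (k h.1)).2.false⟩

lemma s_near {γ : ℕ → ℕ} (hγ : Monotone γ) (hi : ∀ x, x ≤ γ x) {s t u v w z : Finset ℕ}
    {l m : ℕ} (h1 : Ext s l t) (h2 : Run γ l t) (h3 : Nr γ s u) (h4 : Ini u v)
    (h5 : s = ∅ → v = ∅) (h6 : ∀ x, (∀ a ∈ s, a ≤ x) → ∀ y ∈ v, y ≤ γ x) (h7 : Ext v m w)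
    (h8 : Ini w z) (h9 : l ≤ m)
    (h : ((∀ x ∈ t, x ≤ γ l) ∧ ∀ y ∈ z, y ≤ γ l) ∨ (m ≤ γ l ∧ Run γ m w ∧
      (∃ y ∈ w, ∀ x ∈ t, x ≤ y) ∧ ∀ x, (∀ a ∈ t, a ≤ x) → ∀ y ∈ z, y ≤ γ x)) : Nr γ t z := by
  have hm := h8.1 h7.1
  constructor
  · intro x hx
    rcases lt_or_ge x l with a | a
    · obtain ⟨y, b, c⟩ := h3.1 x (h1.mem.2 ⟨hx, a⟩)
      exact ⟨y, h8.1 (h7.ini.1 (h4.1 b)), c⟩
    rcases h with ⟨b, c⟩ | ⟨b, c, ⟨y, d, e⟩, -⟩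
    · exact ⟨m, hm, (b x hx).trans (hγ h9), (c m hm).trans (hγ a)⟩
    rcases le_total x m with f | f
    · exact ⟨m, hm, f.trans (hi m), b.trans (hγ a)⟩
    · obtain ⟨y, p, q, r⟩ := c x f ⟨y, d, e x hx⟩
      exact ⟨y, h8.1 p, q.trans (hi y), r⟩
  · intro y hy
    rcases lt_or_ge y m with a | a
    · have b : y ∈ v := h7.mem.2 ⟨(h8.2 y hy).resolve_right fun k => (k m h7.1).not_gt a, a⟩
      rcases h4.2 y b with c | c
      · obtain ⟨x, d, e⟩ := h3.2 y c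
        exact ⟨x, h1.ini.1 d, e⟩
      · obtain ⟨x, d, e⟩ := s.exists_max_image id
          (Finset.nonempty_iff_ne_empty.2 fun k => by simp [h5 k] at b)
        obtain ⟨y', f, g, -⟩ := h3.1 x d
        exact ⟨x, h1.ini.1 d, g.trans (hγ (c y' f)), h6 x e y b⟩
    rcases h with ⟨-, c⟩ | ⟨-, -, -, c⟩
    · exact ⟨l, h1.1, (h9.trans a).trans (hi y), c y hy⟩
    obtain ⟨x, d, e⟩ := t.exists_max_image id ⟨l, h1.1⟩
    rcases le_total y x with f | f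
    · obtain ⟨x, p, q, r⟩ := h2 y (h9.trans a) ⟨x, d, f⟩
      exact ⟨x, p, r, q.trans (hi x)⟩
    · exact ⟨x, d, f.trans (hi y), c x e y hy⟩

lemma s_bound {α : Type} (h b : α → ℕ) (hf : ∀ x, {a | h a ≤ x}.Finite) :
    ∃ γ, Monotone γ ∧ ∀ a x, h a ≤ x → b a ≤ γ x :=
  ⟨fun x => (hf x).toFinset.sup b, fun x y k => Finset.sup_mono fun a ha => by
    simpa using (show h a ≤ x by simpa using ha).trans k,
    fun a x k => Finset.le_sup (f := b) (by simpa using k)⟩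

/-- recursion along parents -/
noncomputable def pi (par : Finset ℕ → Finset ℕ) (W : Finset ℕ → Finset ℕ → Finset ℕ)
    (t : Finset ℕ) : Finset ℕ :=
  if (par t).card < t.card then W t (pi par W (par t)) else ∅
termination_by t.card

lemma s_gen {P Q : ℕ → Finset ℕ} (hP : Prp P) (hQ : Prp Q) {N : Set (Finset ℕ)}
    {Par : Finset ℕ → ℕ → Finset ℕ → Prop} {Z : Finset ℕ → Finset ℕ → Prop} {g g' : ℕ → ℕ}
    (hN : ∀ i, P i ∈ N) (h0 : ∀ t ∈ N, 0 ∈ t)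
    (par : ∀ t ∈ N, ∃ s l, (s ∈ N ∨ s = ∅) ∧ Par s l t)
    (hp : ∀ s l t, Par s l t → Ext s l t ∧ Run g l t) (z0 : Z ∅ ∅)
    (hZ : ∀ t ∈ N, ∀ u, Z t u → u ∈ cl Q)
    (step : ∀ s u, Z s u → ∃ v, Ini u v ∧ (s = ∅ → v = ∅) ∧ ∀ l, ∃ M m, l ≤ m ∧ ∀ t, Par s l t →
      ∀ n, ((∀ x ∈ t, x ≤ M) ∧ ∃ w k, Ext v k w ∧ Z t w ∧ (s ≠ ∅ → n ≤ k)) ∨
        ∃ w, Ext v m w ∧ Run g' m w ∧ Z t w ∧ ∃ y ∈ w, n ≤ y) : Sim P Q := by
  classical
  choose! p l p1 p2 using par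
  choose! v v1 v2 M m m1 st using step
  let C : Finset ℕ → Finset ℕ → ℕ → Finset ℕ → Prop := fun t u n w => Z t w ∧
    (((∀ x ∈ t, x ≤ M (p t) u (l t)) ∧ ∃ k, Ext (v (p t) u) k w ∧ (p t ≠ ∅ → n ≤ k)) ∨
      (Ext (v (p t) u) (m (p t) u (l t)) w ∧ Run g' (m (p t) u (l t)) w ∧ ∃ y ∈ w, n ≤ y))
  have c1 : ∀ t ∈ N, ∀ u, Z (p t) u → ∀ n, ∃ w, C t u n w := fun t ht u hu n =>
    (st _ _ hu _ t (p2 t ht) n).elim (fun ⟨a, w, k, b, c, d⟩ => ⟨w, c, Or.inl ⟨a, k, b, d⟩⟩)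
      fun ⟨w, a, b, c, d⟩ => ⟨w, c, Or.inr ⟨a, b, d⟩⟩
  choose! W hW using fun t ht u hu => c1 t ht u hu (t.sup id)
  obtain ⟨π, π0, π1⟩ : ∃ π : Finset ℕ → Finset ℕ, π ∅ = ∅ ∧ ∀ t ∈ N, π t = W t (π (p t)) :=
    ⟨pi p W, by rw [pi, if_neg (by simp)], fun t ht => by
      rw [pi, if_pos (hp _ _ _ (p2 t ht)).1.card]⟩
  have z1 : ∀ n t, t.card < n → t ∈ N ∨ t = ∅ → Z t (π t) := fun n => by
    induction n with
    | zero => simp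
    | succ n ih =>
      rintro t h (ht | rfl)
      · have := (hp _ _ _ (p2 t ht)).1.card
        exact π1 t ht ▸ (hW t ht _ (ih _ (by omega) (p1 t ht))).1
      · rwa [π0]
  have z2 : ∀ t ∈ N, Z (p t) (π (p t)) := fun t ht => z1 _ _ (Nat.lt_succ_self _) (p1 t ht)
  have q1 : ∀ n, ∃ j, ∃ y ∈ Q j, n ≤ y := fun n => by
    obtain ⟨j, hj⟩ := (hQ.2 n).exists_notMem
    simp only [mem_ofPred_eq, not_forall, not_le] at hj
    obtain ⟨y, a, b⟩ := hj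
    exact ⟨j, y, a, b.le⟩
  obtain ⟨ψ, ψ1, ψ2⟩ := OR.exists_inj (Q := fun i j => (p (P i) = ∅ ∧
      ∀ x ∈ P i, x ≤ M ∅ ∅ (l (P i))) ∨ ∃ w, C (P i) (π (p (P i))) ((P i).sup id) w ∧ Ini w (Q j))
      fun i => by
    intro hf
    obtain ⟨n, hn⟩ := (hf.image fun j => (Q j).sup id).bddAbove
    have k : ∀ j, (∃ y ∈ Q j, n + 1 ≤ y) → ¬ _ := fun j ⟨y, a, b⟩ c =>
      ((Finset.le_sup (f := id) a).trans (hn ⟨j, c, rfl⟩)).not_gt b
    obtain ⟨w, a, b⟩ := c1 _ (hN i) _ (z2 _ (hN i)) (max (n + 1) ((P i).sup id))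
    obtain ⟨j, hj⟩ := hZ _ (hN i) w a (w.sup id + 1)
    rw [Finset.filter_true_of_mem (s := w) (p := (· < w.sup id + 1)) fun x hx =>
      Nat.lt_succ_of_le (Finset.le_sup (f := id) hx)] at hj
    have c : Ini w (Q j) := ⟨hj ▸ Finset.filter_subset _ _, fun y hy =>
      (lt_or_ge y (w.sup id + 1)).imp (fun k => hj ▸ Finset.mem_filter.2 ⟨hy, k⟩)
        fun k x hx => (Finset.le_sup (f := id) hx).trans (Nat.le_of_succ_le k)⟩
    rcases b with ⟨b, k', d, e⟩ | ⟨b, d, y, e, f⟩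
    · by_cases h : p (P i) = ∅
      · obtain ⟨j, hj⟩ := q1 (n + 1)
        exact k j hj (Or.inl ⟨h, by rwa [h, π0] at b⟩)
      · exact k j ⟨k', c.1 d.1, le_of_max_le_left (e h)⟩ (Or.inr ⟨w, ⟨a, Or.inl ⟨b, k', d,
          fun h => le_of_max_le_right (e h)⟩⟩, c⟩)
    · exact k j ⟨y, c.1 e, le_of_max_le_left f⟩
        (Or.inr ⟨w, ⟨a, Or.inr ⟨b, d, y, e, le_of_max_le_right f⟩⟩, c⟩)
  obtain ⟨γ1, a1, a2⟩ := s_bound (fun a : Finset ℕ × ℕ => max (a.1.sup id) a.2)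
    (fun a => a.2 + g a.2 + g' a.2 + (v a.1 (π a.1)).sup id + (π a.1).sup id + m a.1 (π a.1) a.2 +
      M a.1 (π a.1) a.2) fun x =>
    (((Finset.range (x + 1)).powerset.finite_toSet).prod (finite_Iic x)).subset fun a ha =>
      ⟨Finset.mem_powerset.2 fun y hy => Finset.mem_range_succ_iff.2
        ((Finset.le_sup (f := id) hy).trans (max_le_iff.1 ha).1), mem_Iic.2 (max_le_iff.1 ha).2⟩
  obtain ⟨γ2, b1, b2⟩ := s_bound (fun i => (P i).sup id) (fun i => (Q (ψ i)).sup id) fun x =>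
    (hP.2 x).subset fun i hi y hy => (Finset.le_sup (f := id) hy).trans hi
  let δ := γ1 + γ2
  have d1 : Monotone δ := a1.add b1
  have d2 : ∀ s x, (∀ a ∈ s, a ≤ x) → x + g x + g' x + (v s (π s)).sup id + (π s).sup id +
      m s (π s) x + M s (π s) x ≤ δ x := fun s x h =>
    (a2 (s, x) x (max_le (Finset.sup_le h) le_rfl)).trans (Nat.le_add_right _ _)
  have d3 : ∀ x, x ≤ δ x ∧ g x ≤ δ x ∧ g' x ≤ δ x := fun x => by
    have := d2 ∅ x (by simp)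
    omega
  have d4 : ∀ x, δ x ≤ δ (δ x) := fun x => (d3 _).1
  have d5 : ∀ x, x ≤ δ (δ x) := fun x => (d3 _).1.trans (d4 x)
  have key : ∀ t ∈ N, Nr (δ ∘ δ) (p t) (π (p t)) → ∀ w z, C t (π (p t)) (t.sup id) w → Ini w z →
      (∀ x, (∀ a ∈ t, a ≤ x) → ∀ y ∈ z, y ≤ δ x) → Nr (δ ∘ δ) t z := by
    intro t ht h w z hw hz hb
    obtain ⟨e1, e2⟩ := hp _ _ _ (p2 t ht)
    have e3 := d2 (p t) (l t) fun a ha => (e1.mem.1 ha).2.le
    have e4 : Run (δ ∘ δ) (l t) t := fun x a b => (e2 x a b).imp fun y c =>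
      ⟨c.1, c.2.1, c.2.2.trans ((d3 x).2.1.trans (d4 x))⟩
    have e5 : ∀ x, (∀ a ∈ p t, a ≤ x) → ∀ y ∈ v (p t) (π (p t)), y ≤ (δ ∘ δ) x := fun x a y b => by
      have := d2 _ x a
      have := Finset.le_sup (f := id) b
      exact (show y ≤ δ x by simp only [id] at *; omega).trans (d4 x)
    rcases hw.2 with ⟨a, k, b, c⟩ | ⟨a, b, y, c, d⟩
    · have f : ∀ x ∈ t, x ≤ δ (l t) := fun x hx => (a x hx).trans (by omega)
      refine s_near (d1.comp d1) d5 e1 e4 h (v1 _ _ (z2 t ht)) (v2 _ _ (z2 t ht)) e5 b hz ?_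
        (Or.inl ⟨fun x hx => (f x hx).trans (d4 _), hb _ f⟩)
      by_cases j : p t = ∅
      · have := (e1.mem (x := 0)).not.1 (by simp [j])
        simp only [h0 t ht, true_and] at this
        omega
      · exact (Finset.le_sup (f := id) e1.1).trans (c j)
    · exact s_near (d1.comp d1) d5 e1 e4 h (v1 _ _ (z2 t ht)) (v2 _ _ (z2 t ht)) e5 a hz
        (m1 _ _ (z2 t ht) _) (Or.inr ⟨(show _ ≤ δ (l t) by omega).trans (d4 _),
          fun x a' b' => (b x a' b').imp fun y c => ⟨c.1, c.2.1, c.2.2.trans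
            ((d3 x).2.2.trans (d4 x))⟩, ⟨y, c, fun x hx => (Finset.le_sup (f := id) hx).trans d⟩,
          fun x a' y b' => (hb x a' y b').trans (d4 x)⟩)
  have n1 : ∀ n t, t.card < n → t ∈ N ∨ t = ∅ → Nr (δ ∘ δ) t (π t) := fun n => by
    induction n with
    | zero => simp
    | succ n ih =>
      rintro t h (ht | rfl)
      · have := (hp _ _ _ (p2 t ht)).1.card
        refine key t ht (ih _ (by omega) (p1 t ht)) _ _ (π1 t ht ▸ hW t ht _ (z2 t ht)) (.rf _)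
          fun x a y b => ?_
        have := d2 _ x a
        have := Finset.le_sup (f := id) b
        simp only [id] at *
        omega
      · simp [π0, Nr]
  refine ⟨δ ∘ δ, d1.comp d1, ψ, ψ1, fun i => ?_⟩
  have f : ∀ x, (∀ a ∈ P i, a ≤ x) → ∀ y ∈ Q (ψ i), y ≤ δ x := fun x a y b =>
    (Finset.le_sup (f := id) b).trans ((b2 i x (Finset.sup_le a)).trans (Nat.le_add_left _ _))
  rcases ψ2 i with ⟨a, b⟩ | ⟨w, a, b⟩
  · have e1 := (hp _ _ _ (p2 _ (hN i))).1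
    have e2 := (e1.mem (x := 0)).not.1 (by simp [a])
    have e3 := d2 ∅ 0 (by simp)
    simp only [hP.1 i, true_and, not_lt, nonpos_iff_eq_zero] at e2
    rw [π0] at e3
    rw [e2] at b
    have e4 : ∀ x ∈ P i, x ≤ δ 0 := fun x hx => (b x hx).trans (by omega)
    exact ⟨fun x hx => ⟨0, hQ.1 _, (e4 x hx).trans (d4 0), Nat.zero_le _⟩,
      fun y hy => ⟨0, hP.1 _, Nat.zero_le _, f _ e4 y hy⟩⟩
  · exact key _ (hN i) (n1 _ _ (Nat.lt_succ_self _) (p1 _ (hN i))) w _ a b f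

theorem sim_ker {P Q : ℕ → Finset ℕ} (hP : Prp P) (hQ : Prp Q) (k : Ker (cl Q)) : Sim P Q := by
  obtain ⟨N, n1, ⟨s0, n2⟩, n3⟩ := k
  refine s_gen hP hQ (N := {t | 0 ∈ t}) (Par := fun s l t => Ext s l t ∧ ∀ x ∈ t, x ≤ l)
    (Z := fun s u => if s = ∅ then u = ∅ else u ∈ N) (g := id) (g' := id) hP.1 (fun _ h => h)
    (fun t ht => ?_) (fun s l t h => ⟨h.1, fun x a ⟨y, b, c⟩ => ⟨y, b, c, (h.2 y b).trans a⟩⟩)
    (by simp) (fun t ht u h => n1 (by rwa [if_neg (Finset.ne_empty_of_mem ht)] at h))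
    fun s u h => ⟨u, .rf _, fun j => by rwa [if_pos j] at h, fun l => ⟨l, l, le_rfl,
      fun t ht n => Or.inl ⟨ht.2, ?_⟩⟩⟩
  · obtain ⟨x, d, e⟩ := t.exists_max_image id ⟨0, ht⟩
    refine ⟨_, x, ?_, ⟨d, rfl⟩, e⟩
    rcases x.eq_zero_or_pos with rfl | j
    · simp
    · exact Or.inl (Finset.mem_filter.2 ⟨ht, j⟩)
  · simp only [if_neg (Finset.ne_empty_of_mem ht.1.1)]
    split_ifs at h with j
    · exact ⟨s0, 0, ⟨hQ.cls.1 _ (n1 n2), by simp [h]⟩, n2, fun k => (k j).elim⟩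
    · obtain ⟨l, w, a, b, c⟩ := n3 u h n
      exact ⟨w, l, b, c, fun _ => a⟩

lemma s_run {K : Set (Finset ℕ)} (hK : Cls K) (κ : Finset ℕ → ℕ) :
    ∃ g, ∀ s l t, Ch K κ s l t → Run g l t := by
  have : ∀ p : Finset ℕ, ∃ k, p ∉ K → ∀ t ∈ K, t.filter (· < k) ≠ p.filter (· < k) := fun p => by
    by_cases h : p ∈ K
    · exact ⟨0, fun k => (k h).elim⟩
    · have := mt (hK.2 p) h
      push Not at this
      exact this.imp fun _ k _ => k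
  choose f hf using this
  obtain ⟨g, -, g2⟩ := s_bound (fun p : Finset ℕ => p.sup id) (fun p => f p + κ p) fun x =>
    (Finset.range (x + 1)).powerset.finite_toSet.subset fun a ha =>
      Finset.mem_powerset.2 fun y hy => Finset.mem_range_succ_iff.2
        ((Finset.le_sup (f := id) hy).trans ha)
  refine ⟨id + g, fun s l t h x a ⟨y, b, c⟩ => ?_⟩
  obtain ⟨y, d, e⟩ := (t.filter (x ≤ ·)).exists_min_image id ⟨y, Finset.mem_filter.2 ⟨b, c⟩⟩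
  obtain ⟨d1, d2⟩ := Finset.mem_filter.1 d
  refine ⟨y, d1, d2, ?_⟩
  rcases d2.eq_or_lt with rfl | j
  · exact Nat.le_add_right _ _
  have := g2 (t.filter (· < y)) x (Finset.sup_le fun z hz => le_of_not_ge fun k =>
    (e z (Finset.mem_filter.2 ⟨(Finset.mem_filter.1 hz).1, k⟩)).not_gt (Finset.mem_filter.1 hz).2)
  refine le_trans ?_ (this.trans (Nat.le_add_left _ _))
  by_cases k : t.filter (· < y) ∈ K
  · exact (h.2.2 y d1 (a.trans_lt j) k).le.trans (Nat.le_add_left _ _)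
  · refine le_trans (le_of_not_ge fun i => hf _ k t h.1 ?_) (Nat.le_add_right _ _)
    rw [Finset.filter_filter]
    exact Finset.filter_congr fun z _ => ⟨fun a => ⟨a.trans_le i, a⟩, fun a => a.2⟩

lemma s_desc {K : Set (Finset ℕ)} (E : Typ K) {z : T} {u : Finset ℕ} (hu : u ∈ K)
    (h : Relation.ReflTransGen T.Kid z (E.τ u)) : ∃ v ∈ K, Ini u v ∧ z = E.τ v := by
  induction h using Relation.ReflTransGen.head_induction_on with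
  | refl => exact ⟨u, hu, .rf _, rfl⟩
  | head h _ ih =>
    obtain ⟨v, a, b, rfl⟩ := ih
    rw [E.hτ v a] at h
    obtain ⟨⟨w, l, -, c⟩, rfl⟩ := h
    exact ⟨w, c.1, b.tr c.2.1.ini, rfl⟩

theorem sim_typ {P Q : ℕ → Finset ℕ} (hP : Prp P) (hQ : Prp Q) (D : Typ (cl P)) (E : Typ (cl Q))
    (h : D.root.st E.root) : Sim P Q := by
  classical
  obtain ⟨g, hg⟩ := s_run hP.cls D.κ
  obtain ⟨g', hg'⟩ := s_run hQ.cls E.κ
  have ne : ∀ {s}, s ∈ cl P → s ≠ ∅ := fun h => Finset.ne_empty_of_mem (hP.cls.1 _ h)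
  have key : ∀ s v k, (v ∈ cl Q ∨ v = ∅) → (∀ n, ∃ n', (s ≠ ∅ → n ≤ n') ∧ (v ∈ cl Q → E.κ v ≤ n') ∧
      (nd (cl P) D.κ D.μ D.τ s k).st (nd (cl Q) E.κ E.μ E.τ v n')) → ∀ l, ∃ M m, l ≤ m ∧ ∀ t,
      Ch (cl P) D.κ s l t ∧ k ≤ l → ∀ n, ((∀ x ∈ t, x ≤ M) ∧ ∃ w j, Ext v j w ∧
        (w ∈ cl Q ∧ (D.τ t).le (E.τ w)) ∧ (s ≠ ∅ → n ≤ j)) ∨ ∃ w, Ext v m w ∧ Run g' m w ∧
          (w ∈ cl Q ∧ (D.τ t).le (E.τ w)) ∧ ∃ y ∈ w, n ≤ y := by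
    intro s v k hv H l
    by_cases hl : ∃ t, Ch (cl P) D.κ s l t ∧ k ≤ l
    swap
    · exact ⟨0, l, le_rfl, fun t ht => (hl ⟨t, ht⟩).elim⟩
    obtain ⟨t0, t1, hl⟩ := hl
    obtain ⟨n', a1, a2, -, a3⟩ := H l
    obtain ⟨_, ⟨m, b1, rfl⟩, b2⟩ := a3 _ ⟨l, hl, rfl⟩
    refine ⟨D.μ s l, m, ?_, fun t ht n => ?_⟩
    · by_cases j : s = ∅
      · have := (t1.2.1.mem (x := 0)).not.1 (by simp [j])
        simp only [hP.cls.1 _ t1.1, true_and] at this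
        omega
      · exact (a1 j).trans b1
    by_cases c : ∃ x ∈ t, D.μ s l ≤ x
    · obtain ⟨w, ⟨d1, d2⟩, d3⟩ := b2 ⟨t, l, hl, ht.1⟩ ⟨ht.1, c⟩
      obtain ⟨u, e1, e2, e3⟩ := E.hμ v m (hv.imp_left fun i => ⟨i, (a2 i).trans b1⟩) n _ d1 d2
      exact Or.inr ⟨u, e1.2.1, hg' _ _ _ e1, ⟨e1.1, T.le.trans d3 e3⟩, e2⟩
    · push Not at c
      obtain ⟨n', a1, -, a3, -⟩ := H n
      obtain ⟨⟨w, j, d1, d2⟩, d3⟩ := a3 ⟨t, l, hl, ht.1⟩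
      exact Or.inl ⟨fun x hx => (c x hx).le, w, j, d2.2.1, ⟨d2.1, d3⟩, fun i => (a1 i).trans d1⟩
  refine s_gen hP hQ (N := cl P)
    (Par := fun s l t => Ch (cl P) D.κ s l t ∧ (s ∈ cl P ∧ D.κ s ≤ l ∨ s = ∅))
    (Z := fun s u => if s = ∅ then u = ∅ else u ∈ cl Q ∧ (D.τ s).le (E.τ u)) (g := g) (g' := g')
    (fun i _ => ⟨i, rfl⟩) hP.cls.1 (fun t ht => ?_) (fun s l t h => ⟨h.1.2.1, hg _ _ _ h.1⟩)
    (by simp) (fun t ht u h => by rw [if_neg (ne ht)] at h; exact h.1) fun s u hz => ?_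
  · obtain ⟨l, a, b⟩ := (t.filter fun m => m = 0 ∨
      (t.filter (· < m) ∈ cl P ∧ D.κ (t.filter (· < m)) ≤ m)).exists_max_image id
      ⟨0, Finset.mem_filter.2 ⟨hP.cls.1 _ ht, Or.inl rfl⟩⟩
    obtain ⟨a1, a2⟩ := Finset.mem_filter.1 a
    have c : t.filter (· < l) ∈ cl P ∧ D.κ (t.filter (· < l)) ≤ l ∨ t.filter (· < l) = ∅ :=
      a2.symm.imp_right fun j => by simp [j]
    exact ⟨_, l, c.imp_left And.left, ⟨ht, ⟨a1, rfl⟩, fun m h1 h2 h3 => not_le.1 fun h4 =>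
      (b m (Finset.mem_filter.2 ⟨h1, Or.inr ⟨h3, h4⟩⟩)).not_gt h2⟩, c⟩
  split_ifs at hz with j
  · subst j hz
    refine ⟨∅, .rf _, fun _ => rfl, fun l => ?_⟩
    obtain ⟨M, m, a, b⟩ := key ∅ ∅ 0 (Or.inr rfl) (fun _ => ⟨0, fun k => (k rfl).elim,
      fun k => by simpa using hQ.cls.1 _ k, h⟩) l
    exact ⟨M, m, a, fun t ht n => by
      simpa only [if_neg (ne ht.1.1)] using b t ⟨ht.1, l.zero_le⟩ n⟩
  by_cases hs : s ∈ cl P
  · obtain ⟨z, a, b⟩ := T.le_iff.1 hz.2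
    obtain ⟨v, c, d, rfl⟩ := s_desc E hz.1 a
    refine ⟨v, d, fun k => (j k).elim, fun l => ?_⟩
    obtain ⟨M, m, a, b⟩ := key s v (D.κ s) (Or.inl c) (fun n => ⟨max n (E.κ v),
      fun _ => le_max_left _ _, fun _ => le_max_right _ _,
      D.hτ s hs ▸ T.st.trans b (E.hκ v c _)⟩) l
    exact ⟨M, m, a, fun t ht n => by
      simpa only [if_neg (ne ht.1.1)] using b t ⟨ht.1, (ht.2.resolve_right j).2⟩ n⟩
  · exact ⟨u, .rf _, fun k => (j k).elim, fun l => ⟨0, l, le_rfl, fun t ht =>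
      (hs (ht.2.resolve_right j).1).elim⟩⟩

end Pool.Agent.P.MP_52b1ec_lc.TH
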