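import Pool.Agent.P.MP_52b1ec_lc.T.Rank
import Pool.Agent.P.MP_52b1ec_lc.T.Ord

namespace Pool.Agent.P.MP_52b1ec_lc.TH

open Set

/-- recursion along a well-founded relation, as a fixed point -/
theorem d_fix {α β : Type} [Nonempty β] {r : α → α → Prop} (wf : WellFounded r)
    (step : (α → β) → α → β)
    (h : ∀ d d' s, (∀ t, r t s → d t = d' t) → step d s = step d' s) :
    ∃ d : α → β, ∀ s, d s = step d s := by
  classical
  refine ⟨wf.fix fun s rec =>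
    step (fun t => if ht : r t s then rec t ht else Classical.arbitrary β) s, fun s => ?_⟩
  rw [WellFounded.fix_eq]
  exact h _ _ s fun t ht => dif_pos ht

open Classical in
/-- the stage at which a decreasing family of sets of types is stable -/
noncomputable def d_M (F : ℕ → Set T) : ℕ :=
  if h : ∃ k, ∀ m, ∀ x ∈ F k, ∃ y ∈ F m, x.le y then h.choose else 0

theorem d_M_spec {F : ℕ → Set T} (h : Antitone F) :
    ∀ m, ∀ x ∈ F (d_M F), ∃ y ∈ F m, x.le y := by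
  have h1 := stab1 h
  rw [d_M, dif_pos h1]
  exact h1.choose_spec

/-- the thresholds for far children -/
noncomputable def d_mu (K : Set (Finset ℕ)) (κ : Finset ℕ → ℕ) (τ : Finset ℕ → T)
    (s : Finset ℕ) (l : ℕ) : ℕ :=
  d_M fun m => τ '' {t | Ch K κ s l t ∧ ∃ x ∈ t, m ≤ x}

theorem d_mu_spec (K : Set (Finset ℕ)) (κ : Finset ℕ → ℕ) (τ : Finset ℕ → T) (s : Finset ℕ)
    (l N : ℕ) (t : Finset ℕ) (ht : Ch K κ s l t) (hx : ∃ x ∈ t, d_mu K κ τ s l ≤ x) :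
    ∃ u, Ch K κ s l u ∧ (∃ x ∈ u, N ≤ x) ∧ (τ t).le (τ u) := by
  obtain ⟨_, ⟨u, hu, rfl⟩, hy⟩ := d_M_spec
    (F := fun m => τ '' {t | Ch K κ s l t ∧ ∃ x ∈ t, m ≤ x})
    (fun a b hab => image_mono fun u hu => ⟨hu.1, hu.2.imp fun x q => ⟨q.1, hab.trans q.2⟩⟩)
    N (τ t) ⟨t, ⟨ht, hx⟩, rfl⟩
  exact ⟨u, hu.1, hu.2, hy⟩

open Classical in
/-- a stage whose type strongly simulates into all stages -/
noncomputable def d_pick (N : ℕ → T) : ℕ :=
  if h : ∃ k, ∀ m, (N k).st (N m) then h.choose else 0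

theorem d_pick_spec {N : ℕ → T} (h : ∃ k, ∀ m, (N k).st (N m)) (m : ℕ) :
    (N (d_pick N)).st (N m) := by
  rw [d_pick, dif_pos h]
  exact h.choose_spec m

theorem d_mono (K : Set (Finset ℕ)) (κ : Finset ℕ → ℕ) (μ : Finset ℕ → ℕ → ℕ)
    (τ : Finset ℕ → T) (s : Finset ℕ) {k k' : ℕ} (h : k ≤ k') :
    (nd K κ μ τ s k').st (nd K κ μ τ s k) :=
  ⟨fun i => ⟨⟨i.1, i.2.imp fun _ q => ⟨h.trans q.1, q.2⟩⟩, T.le_refl _⟩,
    fun W hW => ⟨W, hW.imp fun _ q => ⟨h.trans q.1, q.2⟩, fun i hi =>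
      ⟨⟨i.1, i.2.imp fun _ q => ⟨h.trans q.1, q.2⟩⟩, hi, T.le_refl _⟩⟩⟩

theorem d_stab (K : Set (Finset ℕ)) (κ : Finset ℕ → ℕ) (μ : Finset ℕ → ℕ → ℕ)
    (τ : Finset ℕ → T) (s : Finset ℕ) (c : ℕ) :
    ∃ k, ∀ m, (nd K κ μ τ s (c + k)).st (nd K κ μ τ s (c + m)) := by
  obtain ⟨k1, h1⟩ := stab1 (F := fun k => τ '' {t | ∃ l, k ≤ l ∧ Ch K κ s l t})
    (fun a b hab => image_mono fun u hu => hu.imp fun _ q => ⟨hab.trans q.1, q.2⟩)
  obtain ⟨k2, h2⟩ := stab2 τ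
    (G := fun k => {W | ∃ l, k ≤ l ∧ W = {t | Ch K κ s l t ∧ ∃ x ∈ t, μ s l ≤ x}})
    (fun a b hab W hW => hW.imp fun _ q => ⟨hab.trans q.1, q.2⟩)
  refine ⟨k1 + k2, fun m => ⟨fun i => ?_, fun W hW => ?_⟩⟩
  · obtain ⟨_, ⟨u, hu, rfl⟩, hy⟩ := h1 (c + m) (τ i.1)
      ⟨i.1, i.2.imp fun _ q => ⟨by have := q.1; omega, q.2⟩, rfl⟩
    exact ⟨⟨u, hu⟩, hy⟩
  · obtain ⟨W', hW', h3⟩ := h2 (c + m) W (hW.imp fun _ q => ⟨by have := q.1; omega, q.2⟩)
    refine ⟨W', hW', fun i hi => ?_⟩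
    obtain ⟨b, hb, h4⟩ := h3 i.1 hi
    obtain ⟨l, hl, rfl⟩ := hW'
    exact ⟨⟨b, l, hl, hb.1⟩, hb, h4⟩

theorem d_mk {A A' : Set (Finset ℕ)} {τ τ' : Finset ℕ → T} {R R' : Set (Set (Finset ℕ))}
    (hA : A = A') (hτ : ∀ t ∈ A, τ t = τ' t) (hR : R = R') :
    T.mk A (fun i => τ i.1) R = T.mk A' (fun i => τ' i.1) R' := by
  subst hA hR
  congr 1
  funext i
  exact hτ i.1 i.2

theorem d_ch {K : Set (Finset ℕ)} {κ κ' : Finset ℕ → ℕ} {s : Finset ℕ} {l : ℕ}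
    (h : ∀ p ∈ K, Ext s l p → κ p = κ' p) : Ch K κ s l = Ch K κ' s l := by
  funext t
  refine propext (and_congr_right fun _ => and_congr_right fun ht =>
    forall_congr' fun m => forall_congr' fun _ => forall_congr' fun hl =>
      forall_congr' fun hp => ?_)
  rw [h _ hp ⟨Finset.mem_filter.2 ⟨ht.1, hl⟩, ?_⟩]
  rw [ht.2, Finset.filter_filter]
  exact Finset.filter_congr fun x _ => ⟨fun q => ⟨q.trans hl, q⟩, fun q => q.2⟩

theorem d_nd {K : Set (Finset ℕ)} {κ κ' : Finset ℕ → ℕ} {τ τ' : Finset ℕ → T} {s : Finset ℕ}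
    {k : ℕ} (h : ∀ l, k ≤ l → ∀ p ∈ K, Ext s l p → κ p = κ' p ∧ τ p = τ' p) :
    nd K κ (d_mu K κ τ) τ s k = nd K κ' (d_mu K κ' τ') τ' s k := by
  have h1 : ∀ l, k ≤ l → Ch K κ s l = Ch K κ' s l := fun l hl =>
    d_ch fun p hp he => (h l hl p hp he).1
  have h2 : ∀ l, k ≤ l → d_mu K κ τ s l = d_mu K κ' τ' s l := by
    intro l hl
    unfold d_mu
    rw [← h1 l hl]
    congr 1
    funext m
    exact image_congr fun t ht => (h l hl t ht.1.1 ht.1.2.1).2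
  refine d_mk ?_ ?_ ?_
  · ext t
    exact exists_congr fun l => and_congr_right fun hl => by rw [h1 l hl]
  · rintro t ⟨l, hl, ht⟩
    exact (h l hl t ht.1 ht.2.1).2
  · ext W
    exact exists_congr fun l => and_congr_right fun hl => by rw [h1 l hl, h2 l hl]

theorem exists_typ {K : Set (Finset ℕ)} (_h : Cls K) (k : ¬ Ker K) : Nonempty (Typ K) := by
  classical
  obtain ⟨κ₀, wf⟩ := exists_cut k
  have : Nonempty T := ⟨T.mk ∅ (fun i => i.2.elim) ∅⟩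
  let N : (Finset ℕ → ℕ × T) → Finset ℕ → ℕ → T := fun d s m =>
    nd K (fun t => (d t).1) (d_mu K (fun t => (d t).1) fun t => (d t).2) (fun t => (d t).2) s
      (κ₀ s + m)
  obtain ⟨d, hd⟩ := d_fix wf
    (fun (d : Finset ℕ → ℕ × T) s => if s ∈ K then
      (κ₀ s + d_pick (N d s), N d s (d_pick (N d s))) else Classical.arbitrary _) (by
      intro d d' s hdd
      by_cases hs : s ∈ K
      · have : N d s = N d' s := by
          funext m
          refine d_nd fun l hl p hp he => ?_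
          rw [hdd p ⟨hs, hp, l, by omega, he⟩]
          exact ⟨rfl, rfl⟩
        rw [this]
      · rw [if_neg hs, if_neg hs])
  have h1 : ∀ s ∈ K, (d s).1 = κ₀ s + d_pick (N d s) ∧ (d s).2 = N d s (d_pick (N d s)) := by
    intro s hs
    have := hd s
    rw [if_pos hs] at this
    exact ⟨congrArg Prod.fst this, congrArg Prod.snd this⟩
  refine ⟨⟨fun t => (d t).1, d_mu K (fun t => (d t).1) fun t => (d t).2, fun t => (d t).2,
    fun s hs => ?_, fun s hs m => ?_, fun s l _ => d_mu_spec K _ _ s l⟩⟩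
  · rw [(h1 s hs).2]
    conv_rhs => rw [(h1 s hs).1]
  · rw [(h1 s hs).2]
    exact (d_pick_spec (N := N d s) (d_stab K _ _ _ s (κ₀ s)) m).trans
      (d_mono K _ _ _ s (Nat.le_add_left m (κ₀ s)))

end Pool.Agent.P.MP_52b1ec_lc.TH
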